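import Pool.Agent.X312.RL.Main

/-!
# Stable families of subspaces in modules over correspondences: bounds with ranks
-/

open CategoryTheory AlgebraicGeometry

universe u v w

namespace Pool.Agent.X312.DR

open Module
open Pool.Agent.H914 Pool.Agent.H914.VarClass Pool.Agent.H914.VarClass.Obj
  Pool.Agent.H914.WeilCohomology Pool.Agent.Y133.Half Pool.Agent.Y133.Half.Sys
  Pool.Agent.X312.RL Pool.Agent.X312.RL.IsMdl Pool.Agent.X312.DL

variable {k : Type u} [Field k] {𝒱 : VarClass k} {ops : CycleOps 𝒱}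
  {W : WeilCohomology.{u, v} ops} {F : Type w} [Field F] {V : 𝒱.Obj → Type w}
  [∀ X, AddCommGroup (V X)] [∀ X, Module F (V X)] {X : 𝒱.Obj}

variable {S : Sys W} {σ : F →+* W.K} {R : Ops W F V} (h : IsMdl S σ R)
include h

/-- **The step.** For stable families `N' ≤ N` which differ on `P` there is an idempotent `g ≠ 0`
such that the dimensions of `N' Z` and `N Z` differ at least by the rank of the form cut out by `g`,
for all `Z`. -/
theorem step_rank {P : 𝒱.Obj} (hf : Fine σ R P) {N' N : ∀ X, Submodule F (V X)} (hN' : Stable R N')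
    (hN : Stable R N) (hle : ∀ X, N' X ≤ N X) (hne : N' P ≠ N P) :
    ∃ a ∈ R P P, a.1 ∘ₗ a.1 = a.1 ∧ a.2 ∘ₗ a.2 = a.2 ∧ (∃ m ∈ N P, a.1 m ∉ N' P) ∧
      ∀ Z, FiniteDimensional F (N Z) → finrank F (N' Z) + S.r P a.2 Z ≤ finrank F (N Z) := by
  classical
  have hlt : N' P < N P := lt_of_le_of_ne (hle P) hne
  -- an idempotent of minimal rank which is not zero on `N P / N' P`
  let Q : ℕ → Prop := fun n => ∃ g ∈ R P P, g.1 ∘ₗ g.1 = g.1 ∧ g.2 ∘ₗ g.2 = g.2 ∧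
    (∃ m ∈ N P, g.1 m ∉ N' P) ∧ finrank W.K (LinearMap.range g.2) = n
  have hQ : ∃ n, Q n := by
    obtain ⟨m, hm, hm'⟩ := SetLike.exists_of_lt hlt
    exact ⟨_, _, h.one P, rfl, rfl, ⟨m, hm, hm'⟩, rfl⟩
  obtain ⟨⟨g, γ⟩, hg, hgg, hγγ, ⟨m, hm, hgm⟩, hn⟩ := Nat.find_spec hQ
  change g ∘ₗ g = g at hgg
  change γ ∘ₗ γ = γ at hγγ
  change g m ∉ N' P at hgm
  change finrank W.K (LinearMap.range γ) = _ at hn
  have hmin : ∀ g' ∈ R P P, g'.1 ∘ₗ g'.1 = g'.1 → g'.2 ∘ₗ g'.2 = g'.2 →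
      finrank W.K (LinearMap.range g'.2) < finrank W.K (LinearMap.range γ) →
      ∀ m ∈ N P, g'.1 m ∈ N' P := by
    intro g' hg' hgg' hgg'' hlt' m hm
    by_contra h'
    rw [hn] at hlt'
    exact Nat.find_min hQ hlt' ⟨g', hg', hgg', hgg'', ⟨m, hm, h'⟩, rfl⟩
  have hγS : γ ∈ S.Op P P := h.op hg
  refine ⟨(g, γ), hg, hgg, hγγ, ⟨m, hm, hgm⟩, fun Z hZ => ?_⟩
  change finrank F (N' Z) + S.r P γ Z ≤ finrank F (N Z)
  set z := g m with hz
  have hzN : z ∈ N P := hN P P _ hg m hm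
  have hgz : g z = z := congrArg (fun f : V P →ₗ[F] V P => f m) hgg
  -- the key property
  have key : ∀ x ∈ R P P, x.1 z ∈ N' P →
      LinearMap.trace W.K (W.H P) (par (W.isInternal P) ∘ₗ γ ∘ₗ x.2) = 0 := by
    rintro ⟨x, ξ⟩ hx hxz
    change x z ∈ N' P at hxz
    change LinearMap.trace W.K (W.H P) (par (W.isInternal P) ∘ₗ γ ∘ₗ ξ) = 0
    have hyR : (g ∘ₗ x ∘ₗ g, γ ∘ₗ ξ ∘ₗ γ) ∈ R P P := h.comp hg (h.comp hx hg)
    obtain ⟨π, u, ϖ, υ, huR, hπR, e1, e2, e3, e4, hππ, hϖϖ, hnil⟩ := h.fit_pair hf hyR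
    obtain ⟨hgπ, hπg, h1⟩ := idem_sub (A := Module.End F (V P)) (g := g) hgg
      (by change g ∘ₗ (g ∘ₗ x ∘ₗ g) = _; rw [← LinearMap.comp_assoc, hgg])
      (by
        change (g ∘ₗ x ∘ₗ g) ∘ₗ g = _
        rw [LinearMap.comp_assoc, LinearMap.comp_assoc, hgg]) e1 e2 hππ
    obtain ⟨hγϖ, hϖγ, h1'⟩ := idem_sub (A := Module.End W.K (W.H P)) (g := γ) hγγ
      (by change γ ∘ₗ (γ ∘ₗ ξ ∘ₗ γ) = _; rw [← LinearMap.comp_assoc, hγγ])
      (by
        change (γ ∘ₗ ξ ∘ₗ γ) ∘ₗ γ = _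
        rw [LinearMap.comp_assoc, LinearMap.comp_assoc, hγγ]) e3 e4 hϖϖ
    have hyz : (g ∘ₗ x ∘ₗ g) z ∈ N' P := by
      rw [LinearMap.comp_apply, LinearMap.comp_apply, hgz]
      exact hN' P P _ hg _ hxz
    have hϖ0 : ϖ = 0 := by
      by_contra hne
      have h3 := finrank_sub_lt (γ := γ) hγγ hγϖ hϖγ hϖϖ hne
      have h4 : (g - π) z ∈ N' P := hmin (g - π, γ - ϖ) (h.sub hg hπR) h1 h1' h3 z hzN
      have h5 : π z ∈ N' P := by
        rw [e1, Module.End.mul_apply]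
        exact hN' P P _ huR _ hyz
      have h6 : z ∈ N' P := by
        have : z = (g - π) z + π z := by rw [LinearMap.sub_apply, hgz, sub_add_cancel]
        rw [this]
        exact Submodule.add_mem _ h4 h5
      exact hgm h6
    rw [trace_compress (p := par (W.isInternal P)) (γ := γ) hγγ (Op.ev hγS).par_comm]
    exact h.tr_nil (h.op hyR) (hnil hϖ0)
  have hmain := h.r_le_of_key (Op.ev hγS) z hN' hN hzN hZ key
  have hr7 : finrank F ((N Z).map (N' Z).mkQ) + finrank F (N' Z) = finrank F (N Z) := by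
    have h1 := LinearMap.finrank_range_add_finrank_ker ((N' Z).mkQ.domRestrict (N Z))
    rw [LinearMap.range_domRestrict] at h1
    rw [← h1]
    congr 1
    have h2 : LinearMap.ker ((N' Z).mkQ.domRestrict (N Z)) = (N' Z).submoduleOf (N Z) := by
      ext x
      simp [Submodule.submoduleOf]
    rw [h2]
    exact (Submodule.submoduleOfEquivOfLe (hle Z)).finrank_eq.symm
  omega



omit h

/-- The part cut out by an idempotent. -/
lemma r_lower_rank {P P₀ : 𝒱.Obj} {g : Module.End W.K (W.H P)} (hg : g ∈ S.Op P P)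
    (hgg : g ∘ₗ g = g) (Y : 𝒱.Obj) :
    S.a ((P.prod P₀).prod (Y.prod Y)) +
        finrank W.K (LinearMap.range g) * finrank W.K (W.H P₀) * S.a (Y.prod Y) ≤
      S.r P g (P₀.prod (Y.prod Y)) +
        finrank W.K (W.H P) * finrank W.K (W.H P₀) * S.a (Y.prod Y) := by
  set G : Module.End W.K (W.H (P.prod P₀)) := extOp W g 1 with hG
  have hGm : G ∈ S.Op (P.prod P₀) (P.prod P₀) := Op.ext hg Op.id
  have h11 : (1 : Module.End W.K (W.H P₀)) ∘ₗ 1 = 1 := rfl
  have hGG : G * G = G := by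
    rw [hG, extOp_mul, mul_one]
    change extOp W (g ∘ₗ g) 1 = _
    rw [hgg]
  have hG' : (1 - G) ∘ₗ (1 - G) = 1 - G := by
    change (1 - G) * (1 - G) = 1 - G
    rw [mul_sub, sub_mul, sub_mul, hGG]
    simp
  have h1 := S.r_add_le (Z := Y.prod Y) G (1 - G)
  rw [add_sub_cancel, r_one] at h1
  have h2 := S.r_le_rank (g := 1 - G) (Submodule.sub_mem _ Op.id hGm) hG' Y
  have h3 : S.r (P.prod P₀) G (Y.prod Y) = S.r P g (P₀.prod (Y.prod Y)) := S.r_assoc g
  have h4 : finrank W.K (LinearMap.range G) = finrank W.K (LinearMap.range g) *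
      finrank W.K (W.H P₀) := by
    rw [hG, finrank_extOp hgg h11, rank_one]
  have h5 : finrank W.K (LinearMap.range (1 - G)) + finrank W.K (LinearMap.range G) =
      finrank W.K (W.H P) * finrank W.K (W.H P₀) := by
    have e1 := Pool.Agent.Y133.Half.trace_idem hG'
    have e2 := Pool.Agent.Y133.Half.trace_idem (K := W.K) (f := G) hGG
    rw [map_sub, e2, Module.End.one_eq_id, LinearMap.trace_id,
      Pool.Agent.Y133.Half.finrank_prod] at e1
    have e3 : ((finrank W.K (LinearMap.range (1 - G)) + finrank W.K (LinearMap.range G) : ℕ) :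
        W.K) = ((finrank W.K (W.H P) * finrank W.K (W.H P₀) : ℕ) : W.K) := by
      rw [Nat.cast_add]
      have : (finrank W.K (LinearMap.range (1 - G)) : W.K) =
        ((finrank W.K (W.H P) * finrank W.K (W.H P₀) : ℕ) : W.K) -
          (finrank W.K (LinearMap.range G) : W.K) := e1.symm
      rw [this]
      ring
    exact_mod_cast e3
  have h7 : finrank W.K (LinearMap.range g) * finrank W.K (W.H P₀) ≤
      finrank W.K (LinearMap.range G) := h4.ge
  have h8 : finrank W.K (LinearMap.range (1 - G)) * S.a (Y.prod Y) +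
      finrank W.K (LinearMap.range g) * finrank W.K (W.H P₀) * S.a (Y.prod Y) ≤
        finrank W.K (W.H P) * finrank W.K (W.H P₀) * S.a (Y.prod Y) := by
    rw [← add_mul, ← h5]
    exact Nat.mul_le_mul_right _ (Nat.add_le_add_left h7 _)
  rw [h3] at h1
  omega


lemma pow_le_cst {b m n : ℕ} {ρ : ℝ} (hρ : 2 ≤ ρ) (hb : 1 ≤ b) (hn : n < 6) :
    (b : ℝ) ^ (m + 5) ≤ cst b m ρ n := by
  have hb' : (1 : ℝ) ≤ b := by exact_mod_cast hb
  have hlog : (0.6931471803 : ℝ) < Real.log ((n : ℝ) + 2) := by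
    refine Real.log_two_gt_d9.trans_le (Real.log_le_log (by norm_num) ?_)
    have : (0 : ℝ) ≤ n := Nat.cast_nonneg n
    linarith
  have hm : (0 : ℝ) ≤ m := Nat.cast_nonneg m
  have hn' : (n : ℝ) + 1 ≤ 6 := by
    have : n + 1 ≤ 6 := hn
    exact_mod_cast this
  have hn0 : (0 : ℝ) < (n : ℝ) + 1 := by positivity
  have h1 : (0 : ℝ) ≤ (b : ℝ) ^ (m + 5) := by positivity
  unfold cst
  rw [le_div_iff₀ hn0]
  have h2 : (12 : ℝ) ≤ 2 * (m + 3) * ρ := by nlinarith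
  have h3 : (n : ℝ) + 1 ≤ 2 * (m + 3) * ρ * Real.log ((n : ℝ) + 2) := by nlinarith
  calc (b : ℝ) ^ (m + 5) * (n + 1) ≤ (b : ℝ) ^ (m + 5) *
        (2 * (m + 3) * ρ * Real.log ((n : ℝ) + 2)) := mul_le_mul_of_nonneg_left h3 h1
    _ = _ := by ring

include h

/-- The bound for a fixed parity. -/
theorem bound_parity_rank (hpos : ∀ l, 0 < S.al X l) (hX : 0 < finrank W.K (W.H X)) {m : ℕ}
    (hf : Fine σ R (pw X m)) {N' N : ∀ X, Submodule F (V X)} (hN' : Stable R N')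
    (hN : Stable R N) (hle : ∀ X, N' X ≤ N X) (hne : N' (pw X m) ≠ N (pw X m)) {d : ℕ}
    (hd : ∀ a ∈ R (pw X m) (pw X m), a.1 ∘ₗ a.1 = a.1 → a.2 ∘ₗ a.2 = a.2 →
      (∃ z ∈ N (pw X m), a.1 z ∉ N' (pw X m)) → d ≤ finrank W.K (LinearMap.range a.2))
    {ρ : ℝ} (hρ : 2 ≤ ρ) {n : ℕ}
    (hpar : n % 2 = m % 2) (hfd : FiniteDimensional F (N (pw X n))) :
    (finrank F (N' (pw X n)) + (d - cst (finrank W.K (W.H X)) m ρ n) * S.a (pw X n) ≤
      finrank F (N (pw X n))) ∨ ∀ T : Sys W, ρ * S.a (pw X n) ≤ finrank W.K (T.C (pw X n)) := by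
  set b := finrank W.K (W.H X) with hb
  have hb1 : (1 : ℝ) ≤ b := by exact_mod_cast hX
  have ha0 : (0 : ℝ) ≤ S.a (pw X n) := Nat.cast_nonneg _
  have hNN : (finrank F (N' (pw X n)) : ℝ) ≤ finrank F (N (pw X n)) := by
    exact_mod_cast Submodule.finrank_mono (hle _)
  obtain ⟨⟨g', g⟩, hgR, hgg', hgg, hgz, hstep⟩ := step_rank h hf hN' hN hle hne
  change g ∘ₗ g = g at hgg
  have hdg : d ≤ finrank W.K (LinearMap.range g) := hd _ hgR hgg' hgg hgz
  have hg : g ∈ S.Op (pw X m) (pw X m) := h.op hgR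
  have hdb : (d : ℝ) ≤ (b : ℝ) ^ (m + 1) := by
    have h1 : d ≤ finrank W.K (W.H (pw X m)) := hdg.trans (Submodule.finrank_le _)
    rw [finrank_pw] at h1
    exact_mod_cast h1
  rcases lt_or_ge n 6 with hn6 | hn6
  · left
    have hc := pow_le_cst (m := m) hρ hX hn6
    have hbb : (b : ℝ) ^ (m + 1) ≤ (b : ℝ) ^ (m + 5) := pow_le_pow_right₀ hb1 (by omega)
    have : (d - cst b m ρ n) * (S.a (pw X n) : ℝ) ≤ 0 :=
      mul_nonpos_of_nonpos_of_nonneg (by linarith) ha0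
    linarith
  set m₀ := m % 2 with hm₀
  obtain ⟨j, hj⟩ : ∃ j, m + m₀ + 2 = 2 * j := ⟨(m + m₀ + 2) / 2, by omega⟩
  obtain ⟨l', hl'⟩ : ∃ l', n = m₀ + (l' + l' + 1) + 1 := ⟨(n - m₀ - 2) / 2, by omega⟩
  have hj1 : 1 ≤ j := by omega
  have hl1 : 1 ≤ l' := by omega
  have hln : (n : ℝ) + 1 ≤ 4 * l' := by
    have : n + 1 ≤ 4 * l' := by omega
    exact_mod_cast this
  have hl0 : (1 : ℝ) ≤ l' := by exact_mod_cast hl1
  have hj0 : (1 : ℝ) ≤ j := by exact_mod_cast hj1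
  have hlog1 := one_le_log hl1
  have hlogn : Real.log ((l' : ℝ) + 2) ≤ Real.log ((n : ℝ) + 2) := by
    apply Real.log_le_log (by linarith)
    have : l' + 2 ≤ n + 2 := by omega
    exact_mod_cast this
  have hn0 : (0 : ℝ) < (n : ℝ) + 1 := by positivity
  set η : ℝ := ρ * (b : ℝ) ^ 2 * Real.log ((l' : ℝ) + 2) / l' with hη
  have hη0 : 0 ≤ η := by positivity
  set δ : ℝ := ((b : ℝ) ^ 2) ^ j * (j * η) with hδ
  have hδc : δ ≤ cst b m ρ n := by
    have hjm : (j : ℝ) ≤ (m + 3) / 2 := by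
      have : 2 * j ≤ m + 3 := by omega
      have : (2 : ℝ) * j ≤ m + 3 := by exact_mod_cast this
      linarith
    have hbm : ((b : ℝ) ^ 2) ^ j * (b : ℝ) ^ 2 ≤ (b : ℝ) ^ (m + 5) := by
      rw [← pow_mul, ← pow_add]
      exact pow_le_pow_right₀ hb1 (by omega)
    have h1 : δ = (((b : ℝ) ^ 2) ^ j * (b : ℝ) ^ 2) * (j * (ρ * (Real.log ((l' : ℝ) + 2) / l'))) := by
      rw [hδ, hη]; ring
    have h2 : Real.log ((l' : ℝ) + 2) / l' ≤ 4 * Real.log ((n : ℝ) + 2) / (n + 1) := by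
      rw [div_le_div_iff₀ (by linarith) hn0]
      nlinarith
    rw [h1, cst]
    have h3 : 0 ≤ Real.log ((l' : ℝ) + 2) / l' := by positivity
    have hρ0 : 0 ≤ ρ := by linarith
    calc (((b : ℝ) ^ 2) ^ j * (b : ℝ) ^ 2) * (j * (ρ * (Real.log ((l' : ℝ) + 2) / l')))
        ≤ (b : ℝ) ^ (m + 5) * ((m + 3) / 2 * (ρ * (4 * Real.log ((n : ℝ) + 2) / (n + 1)))) := by
          apply mul_le_mul hbm _ (by positivity) (by positivity)
          apply mul_le_mul hjm _ (by positivity) (by positivity)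
          exact mul_le_mul_of_nonneg_left h2 hρ0
      _ = _ := by ring
  rcases le_or_gt (d : ℝ) δ with hδ1 | hδ1
  · left
    have : (d - cst b m ρ n) * (S.a (pw X n) : ℝ) ≤ 0 :=
      mul_nonpos_of_nonpos_of_nonneg (by linarith) ha0
    linarith
  have hη1 : η ≤ 1 := by
    have h1 : (1 : ℝ) ≤ ((b : ℝ) ^ 2) ^ j := one_le_pow₀ (one_le_pow₀ hb1)
    have h1' : (b : ℝ) ^ (m + 1) ≤ ((b : ℝ) ^ 2) ^ j := by
      rw [← pow_mul]
      exact pow_le_pow_right₀ hb1 (by omega)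
    have h2 : η ≤ j * η := by nlinarith
    by_contra hcon
    push Not at hcon
    have h3 : ((b : ℝ) ^ 2) ^ j * 1 ≤ ((b : ℝ) ^ 2) ^ j * (j * η) :=
      mul_le_mul_of_nonneg_left (by linarith) (by linarith)
    rw [← hδ] at h3
    linarith
  set c : ℝ := (b : ℝ) ^ 2 * (1 - η) with hc
  have hc0 : 0 ≤ c := mul_nonneg (by positivity) (by linarith)
  have hcj : ((b : ℝ) ^ 2) ^ j - δ ≤ c ^ j := close_pow (by positivity) hη0 hη1 j le_rfl
  rcases le_or_gt (c * S.al X l') (S.al X (l' + 1)) with hcase | hcase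
  · left
    have hA : ∀ i ≥ l', c * S.al X i ≤ S.al X (i + 1) := fun i hi =>
      ratio_mono hpos (S.al_convex X) hcase hi
    have hst := hstep (pw X n) hfd
    change finrank F (N' (pw X n)) + S.r (pw X m) g (pw X n) ≤ finrank F (N (pw X n)) at hst
    set Y := pw X l' with hY
    set P₀ := pw X m₀ with hP₀
    let φ : P₀.prod (Y.prod Y) ≅ pw X n :=
      prodCongr (Iso.refl _) (pwAdd X l' l') ≪≫ pwAdd X m₀ (l' + l' + 1) ≪≫
        eqToIso (congrArg (pw X) hl'.symm)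
    have hr := S.r_iso (P := pw X m) g φ
    have h4 := r_lower_rank (P₀ := P₀) hg hgg Y
    have hdP : finrank W.K (W.H (pw X m)) = b ^ (m + 1) := finrank_pw _ _
    have hdP₀ : finrank W.K (W.H P₀) = b ^ (m₀ + 1) := finrank_pw _ _
    have hal : S.a (Y.prod Y) = S.al X l' := rfl
    have haP : S.a (((pw X m).prod P₀).prod (Y.prod Y)) = S.al X (l' + j) := by
      rw [S.a_iso (prodCongr (pwAdd X m m₀) (Iso.refl _))]
      exact S.a_pw X (by omega)
    have hup : S.a (pw X n) ≤ b ^ (m₀ + 1) * S.al X l' := by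
      rw [← S.a_iso φ, ← hdP₀]
      exact S.a_le _ _
    have hpow := ratio_pow hc0 hA j l' le_rfl
    rw [haP, hdP, hdP₀, hal, hr] at h4
    have h5 : (S.al X (l' + j) : ℝ) +
        finrank W.K (LinearMap.range g) * (b : ℝ) ^ (m₀ + 1) * S.al X l' ≤
        S.r (pw X m) g (pw X n) + (b : ℝ) ^ (m + 1) * (b : ℝ) ^ (m₀ + 1) *
          S.al X l' := by exact_mod_cast h4
    have h6 : (b : ℝ) ^ (m + 1) * (b : ℝ) ^ (m₀ + 1) = ((b : ℝ) ^ 2) ^ j := by
      rw [← pow_add, ← pow_mul]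
      congr 1
      omega
    rw [h6] at h5
    have h7 : (0 : ℝ) ≤ S.al X l' := Nat.cast_nonneg _
    have hb10 : (1 : ℝ) ≤ (b : ℝ) ^ (m₀ + 1) := one_le_pow₀ hb1
    have hdg' : (d : ℝ) ≤ finrank W.K (LinearMap.range g) := by exact_mod_cast hdg
    have h12 : (d : ℝ) * (b : ℝ) ^ (m₀ + 1) * S.al X l' ≤
        finrank W.K (LinearMap.range g) * (b : ℝ) ^ (m₀ + 1) * S.al X l' :=
      mul_le_mul_of_nonneg_right (mul_le_mul_of_nonneg_right hdg' (by linarith)) h7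
    have h8 : ((d : ℝ) * (b : ℝ) ^ (m₀ + 1) - δ) * S.al X l' ≤ S.r (pw X m) g (pw X n) := by
      nlinarith [mul_le_mul_of_nonneg_right hcj h7]
    have hup' : (S.a (pw X n) : ℝ) ≤ (b : ℝ) ^ (m₀ + 1) * S.al X l' := by exact_mod_cast hup
    have h9 : (d - δ) * S.a (pw X n) ≤ S.r (pw X m) g (pw X n) := by
      calc (d - δ) * S.a (pw X n) ≤ (d - δ) * ((b : ℝ) ^ (m₀ + 1) * S.al X l') :=
            mul_le_mul_of_nonneg_left hup' (by linarith)
        _ ≤ ((d : ℝ) * (b : ℝ) ^ (m₀ + 1) - δ) * S.al X l' := by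
            have hδ0 : 0 ≤ δ := by positivity
            nlinarith [mul_nonneg hδ0 h7]
        _ ≤ _ := h8
    have h10 : (finrank F (N' (pw X n)) : ℝ) + S.r (pw X m) g (pw X n) ≤
        finrank F (N (pw X n)) := by exact_mod_cast hst
    have h11 : (d - cst b m ρ n) * (S.a (pw X n) : ℝ) ≤ (d - δ) * S.a (pw X n) :=
      mul_le_mul_of_nonneg_right (by linarith) ha0
    linarith
  · right
    intro T
    have hBc : ∀ i < l', (S.al X (i + 1) : ℝ) ≤ c * S.al X i := fun i hi =>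
      ratio_le_of_lt hpos (S.al_convex X) hcase hi.le
    refine small_close hc0 hBc hX (m₀ := m₀) (by omega) hl' (by linarith) ?_
    have hkey := real_ineq (b := b) (l := l') hX hl1 hρ hη1 (by
      rw [hη]
      field_simp
      exact le_rfl)
    rw [hc, mul_pow]
    have h7 : (0 : ℝ) ≤ ((b : ℝ) ^ 2) ^ l' := by positivity
    calc ρ * (b : ℝ) ^ 2 * ((l' : ℝ) + 2) ^ (b ^ 2) * (((b : ℝ) ^ 2) ^ l' * (1 - η) ^ l')
        = ((b : ℝ) ^ 2) ^ l' * (ρ * (b : ℝ) ^ 2 * ((l' : ℝ) + 2) ^ (b ^ 2) * (1 - η) ^ l') := by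
          ring
      _ ≤ ((b : ℝ) ^ 2) ^ l' * 1 := mul_le_mul_of_nonneg_left hkey h7
      _ = _ := mul_one _

/-- **The main theorem.** For stable families `N' ≤ N` which differ on the power `X^(m+1)`: for all
`n` the dimensions of `N'` and `N` on `X^(n+1)` differ by at least
`1 - 2 (m + 4) b^(m+6) ρ log (n+2) / (n+1)` times the rank of the form on the classes of the system,
or this rank is at most `1 / ρ` of the dimension of the space of the classes of any system. -/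
theorem bound_rank {X : 𝒱.Obj} {l : W.H X} (hl : l ∈ S.C X) (hl1 : W.tr X l = 1)
    (hf : ∀ m, Fine σ R (pw X m)) {N' N : ∀ X, Submodule F (V X)} (hN' : Stable R N')
    (hN : Stable R N) (hle : ∀ X, N' X ≤ N X) {m : ℕ} (hne : N' (pw X m) ≠ N (pw X m))
    {d : ℕ} (hd : ∀ l, ∀ a ∈ R (pw X l) (pw X l), a.1 ∘ₗ a.1 = a.1 → a.2 ∘ₗ a.2 = a.2 →
      (∃ z ∈ N (pw X l), a.1 z ∉ N' (pw X l)) → d ≤ finrank W.K (LinearMap.range a.2))
    {ρ : ℝ} (hρ : 2 ≤ ρ) (n : ℕ) (hfd : FiniteDimensional F (N (pw X n))) :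
    (finrank F (N' (pw X n)) + (d - cst (finrank W.K (W.H X)) (m + 1) ρ n) * S.a (pw X n) ≤
      finrank F (N (pw X n))) ∨ ∀ T : Sys W, ρ * S.a (pw X n) ≤ finrank W.K (T.C (pw X n)) := by
  have h1 : (1 : W.H X) ≠ 0 := one_ne_zero_of (ne_zero_of_tr hl1)
  have hX : 0 < finrank W.K (W.H X) := by
    have : Nontrivial (W.H X) := ⟨⟨1, 0, h1⟩⟩
    exact Module.finrank_pos
  have hpos : ∀ n, 0 < S.al X n := by
    intro n
    obtain ⟨m, hm, hm1⟩ := S.exists_lam hl hl1 n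
    refine S.a_pos (xp_mem_C S hm hm) ?_
    rw [tr_xp, hm1, mul_one]
  by_cases hpar : n % 2 = m % 2
  · rcases bound_parity_rank h hpos hX (hf m) hN' hN hle hne (hd m) hρ hpar hfd with h2 | h2
    · left
      have h3 := cst_mono (ρ := ρ) (n := n) (b := finrank W.K (W.H X)) (by linarith) hX
        (Nat.le_succ m)
      have h4 : (0 : ℝ) ≤ S.a (pw X n) := Nat.cast_nonneg _
      nlinarith
    · exact Or.inr h2
  · have hne' : N' (pw X (m + 1)) ≠ N (pw X (m + 1)) := by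
      intro heq
      apply hne
      obtain ⟨w, hw, v, hv, hwv⟩ := Sp.exists_split (S := S) (P := pw X m) hl hl1
      exact h.eq_of_factor (hf m) hN' hN hle hw hv hwv heq
    exact bound_parity_rank h hpos hX (hf (m + 1)) hN' hN hle hne' (hd (m + 1)) hρ (by omega) hfd


end Pool.Agent.X312.DR
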