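import Pool.Agent.X312.DR.Bound

/-!
# The part cut out by an idempotent: the lower bound
-/

open CategoryTheory AlgebraicGeometry

universe u v w

namespace Pool.Agent.X312.DR

open Module
open Pool.Agent.H914 Pool.Agent.H914.VarClass Pool.Agent.H914.VarClass.Obj
  Pool.Agent.H914.WeilCohomology Pool.Agent.Y133.Half Pool.Agent.Y133.Half.Sys
  Pool.Agent.X312.RL Pool.Agent.X312.RL.IsMdl Pool.Agent.X312.DL

variable {k : Type u} [Field k] {𝒱 : VarClass k} {ops : CycleOps 𝒱}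
  {W : WeilCohomology.{u, v} ops}

/-- The lower bound for the part cut out by an idempotent, for a fixed parity. -/
theorem lower_core {S : Sys W} {X : 𝒱.Obj} (hpos : ∀ l, 0 < S.al X l)
    (hX : 0 < finrank W.K (W.H X)) {m : ℕ} {g : Module.End W.K (W.H (pw X m))}
    (hg : g ∈ S.Op (pw X m) (pw X m)) (hgg : g ∘ₗ g = g) {d : ℕ}
    (hdg : d ≤ finrank W.K (LinearMap.range g)) {ρ : ℝ} (hρ : 2 ≤ ρ) {n : ℕ}
    (hpar : n % 2 = m % 2) :
    ((d - cst (finrank W.K (W.H X)) m ρ n) * S.a (pw X n) ≤ S.r (pw X m) g (pw X n)) ∨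
      ∀ T : Sys W, ρ * S.a (pw X n) ≤ finrank W.K (T.C (pw X n)) := by
  set b := finrank W.K (W.H X) with hb
  have hb1 : (1 : ℝ) ≤ b := by exact_mod_cast hX
  have ha0 : (0 : ℝ) ≤ S.a (pw X n) := Nat.cast_nonneg _
  have hr0 : (0 : ℝ) ≤ S.r (pw X m) g (pw X n) := Nat.cast_nonneg _
  have hdb : (d : ℝ) ≤ (b : ℝ) ^ (m + 1) := by
    have h1 : d ≤ finrank W.K (W.H (pw X m)) := hdg.trans (Submodule.finrank_le _)
    rw [finrank_pw] at h1
    exact_mod_cast h1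
  rcases lt_or_ge n 6 with hn6 | hn6
  · left
    have hc := pow_le_cst (m := m) hρ hX hn6
    have hbb : (b : ℝ) ^ (m + 1) ≤ (b : ℝ) ^ (m + 5) := pow_le_pow_right₀ hb1 (by omega)
    have : (d - cst b m ρ n) * (S.a (pw X n) : ℝ) ≤ 0 :=
      mul_nonpos_of_nonpos_of_nonneg (by linarith) ha0
    linarith
  set m₀ := m % 2 with hm₀
  obtain ⟨j, hj⟩ : ∃ j, m + m₀ + 2 = 2 * j := ⟨(m + m₀ + 2) / 2, by omega⟩
  obtain ⟨l', hl'⟩ : ∃ l', n = m₀ + (l' + l' + 1) + 1 := ⟨(n - m₀ - 2) / 2, by omega⟩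
  have hj1 : 1 ≤ j := by omega
  have hl1 : 1 ≤ l' := by omega
  have hln : (n : ℝ) + 1 ≤ 4 * l' := by
    have : n + 1 ≤ 4 * l' := by omega
    exact_mod_cast this
  have hl0 : (1 : ℝ) ≤ l' := by exact_mod_cast hl1
  have hj0 : (1 : ℝ) ≤ j := by exact_mod_cast hj1
  have hlog1 := one_le_log hl1
  have hlogn : Real.log ((l' : ℝ) + 2) ≤ Real.log ((n : ℝ) + 2) := by
    apply Real.log_le_log (by linarith)
    have : l' + 2 ≤ n + 2 := by omega
    exact_mod_cast this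
  have hn0 : (0 : ℝ) < (n : ℝ) + 1 := by positivity
  set η : ℝ := ρ * (b : ℝ) ^ 2 * Real.log ((l' : ℝ) + 2) / l' with hη
  have hη0 : 0 ≤ η := by positivity
  set δ : ℝ := ((b : ℝ) ^ 2) ^ j * (j * η) with hδ
  have hδc : δ ≤ cst b m ρ n := by
    have hjm : (j : ℝ) ≤ (m + 3) / 2 := by
      have : 2 * j ≤ m + 3 := by omega
      have : (2 : ℝ) * j ≤ m + 3 := by exact_mod_cast this
      linarith
    have hbm : ((b : ℝ) ^ 2) ^ j * (b : ℝ) ^ 2 ≤ (b : ℝ) ^ (m + 5) := by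
      rw [← pow_mul, ← pow_add]
      exact pow_le_pow_right₀ hb1 (by omega)
    have h1 : δ = (((b : ℝ) ^ 2) ^ j * (b : ℝ) ^ 2) * (j * (ρ * (Real.log ((l' : ℝ) + 2) / l'))) := by
      rw [hδ, hη]; ring
    have h2 : Real.log ((l' : ℝ) + 2) / l' ≤ 4 * Real.log ((n : ℝ) + 2) / (n + 1) := by
      rw [div_le_div_iff₀ (by linarith) hn0]
      nlinarith
    rw [h1, cst]
    have h3 : 0 ≤ Real.log ((l' : ℝ) + 2) / l' := by positivity
    have hρ0 : 0 ≤ ρ := by linarith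
    calc (((b : ℝ) ^ 2) ^ j * (b : ℝ) ^ 2) * (j * (ρ * (Real.log ((l' : ℝ) + 2) / l')))
        ≤ (b : ℝ) ^ (m + 5) * ((m + 3) / 2 * (ρ * (4 * Real.log ((n : ℝ) + 2) / (n + 1)))) := by
          apply mul_le_mul hbm _ (by positivity) (by positivity)
          apply mul_le_mul hjm _ (by positivity) (by positivity)
          exact mul_le_mul_of_nonneg_left h2 hρ0
      _ = _ := by ring
  rcases le_or_gt (d : ℝ) δ with hδ1 | hδ1
  · left
    have : (d - cst b m ρ n) * (S.a (pw X n) : ℝ) ≤ 0 :=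
      mul_nonpos_of_nonpos_of_nonneg (by linarith) ha0
    linarith
  have hη1 : η ≤ 1 := by
    have h1 : (1 : ℝ) ≤ ((b : ℝ) ^ 2) ^ j := one_le_pow₀ (one_le_pow₀ hb1)
    have h1' : (b : ℝ) ^ (m + 1) ≤ ((b : ℝ) ^ 2) ^ j := by
      rw [← pow_mul]
      exact pow_le_pow_right₀ hb1 (by omega)
    have h2 : η ≤ j * η := by nlinarith
    by_contra hcon
    push Not at hcon
    have h3 : ((b : ℝ) ^ 2) ^ j * 1 ≤ ((b : ℝ) ^ 2) ^ j * (j * η) :=
      mul_le_mul_of_nonneg_left (by linarith) (by linarith)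
    rw [← hδ] at h3
    linarith
  set c : ℝ := (b : ℝ) ^ 2 * (1 - η) with hc
  have hc0 : 0 ≤ c := mul_nonneg (by positivity) (by linarith)
  have hcj : ((b : ℝ) ^ 2) ^ j - δ ≤ c ^ j := close_pow (by positivity) hη0 hη1 j le_rfl
  rcases le_or_gt (c * S.al X l') (S.al X (l' + 1)) with hcase | hcase
  · left
    have hA : ∀ i ≥ l', c * S.al X i ≤ S.al X (i + 1) := fun i hi =>
      ratio_mono hpos (S.al_convex X) hcase hi
    set Y := pw X l' with hY
    set P₀ := pw X m₀ with hP₀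
    let φ : P₀.prod (Y.prod Y) ≅ pw X n :=
      prodCongr (Iso.refl _) (pwAdd X l' l') ≪≫ pwAdd X m₀ (l' + l' + 1) ≪≫
        eqToIso (congrArg (pw X) hl'.symm)
    have hr := S.r_iso (P := pw X m) g φ
    have h4 := r_lower_rank (P₀ := P₀) hg hgg Y
    have hdP : finrank W.K (W.H (pw X m)) = b ^ (m + 1) := finrank_pw _ _
    have hdP₀ : finrank W.K (W.H P₀) = b ^ (m₀ + 1) := finrank_pw _ _
    have hal : S.a (Y.prod Y) = S.al X l' := rfl
    have haP : S.a (((pw X m).prod P₀).prod (Y.prod Y)) = S.al X (l' + j) := by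
      rw [S.a_iso (prodCongr (pwAdd X m m₀) (Iso.refl _))]
      exact S.a_pw X (by omega)
    have hup : S.a (pw X n) ≤ b ^ (m₀ + 1) * S.al X l' := by
      rw [← S.a_iso φ, ← hdP₀]
      exact S.a_le _ _
    have hpow := ratio_pow hc0 hA j l' le_rfl
    rw [haP, hdP, hdP₀, hal, hr] at h4
    have h5 : (S.al X (l' + j) : ℝ) +
        finrank W.K (LinearMap.range g) * (b : ℝ) ^ (m₀ + 1) * S.al X l' ≤
        S.r (pw X m) g (pw X n) + (b : ℝ) ^ (m + 1) * (b : ℝ) ^ (m₀ + 1) *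
          S.al X l' := by exact_mod_cast h4
    have h6 : (b : ℝ) ^ (m + 1) * (b : ℝ) ^ (m₀ + 1) = ((b : ℝ) ^ 2) ^ j := by
      rw [← pow_add, ← pow_mul]
      congr 1
      omega
    rw [h6] at h5
    have h7 : (0 : ℝ) ≤ S.al X l' := Nat.cast_nonneg _
    have hb10 : (1 : ℝ) ≤ (b : ℝ) ^ (m₀ + 1) := one_le_pow₀ hb1
    have hdg' : (d : ℝ) ≤ finrank W.K (LinearMap.range g) := by exact_mod_cast hdg
    have h12 : (d : ℝ) * (b : ℝ) ^ (m₀ + 1) * S.al X l' ≤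
        finrank W.K (LinearMap.range g) * (b : ℝ) ^ (m₀ + 1) * S.al X l' :=
      mul_le_mul_of_nonneg_right (mul_le_mul_of_nonneg_right hdg' (by linarith)) h7
    have h8 : ((d : ℝ) * (b : ℝ) ^ (m₀ + 1) - δ) * S.al X l' ≤ S.r (pw X m) g (pw X n) := by
      nlinarith [mul_le_mul_of_nonneg_right hcj h7]
    have hup' : (S.a (pw X n) : ℝ) ≤ (b : ℝ) ^ (m₀ + 1) * S.al X l' := by exact_mod_cast hup
    have h9 : (d - δ) * S.a (pw X n) ≤ S.r (pw X m) g (pw X n) := by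
      calc (d - δ) * S.a (pw X n) ≤ (d - δ) * ((b : ℝ) ^ (m₀ + 1) * S.al X l') :=
            mul_le_mul_of_nonneg_left hup' (by linarith)
        _ ≤ ((d : ℝ) * (b : ℝ) ^ (m₀ + 1) - δ) * S.al X l' := by
            have hδ0 : 0 ≤ δ := by positivity
            nlinarith [mul_nonneg hδ0 h7]
        _ ≤ _ := h8
    have h11 : (d - cst b m ρ n) * (S.a (pw X n) : ℝ) ≤ (d - δ) * S.a (pw X n) :=
      mul_le_mul_of_nonneg_right (by linarith) ha0
    linarith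
  · right
    intro T
    have hBc : ∀ i < l', (S.al X (i + 1) : ℝ) ≤ c * S.al X i := fun i hi =>
      ratio_le_of_lt hpos (S.al_convex X) hcase hi.le
    refine small_close hc0 hBc hX (m₀ := m₀) (by omega) hl' (by linarith) ?_
    have hkey := real_ineq (b := b) (l := l') hX hl1 hρ hη1 (by
      rw [hη]
      field_simp
      exact le_rfl)
    rw [hc, mul_pow]
    have h7 : (0 : ℝ) ≤ ((b : ℝ) ^ 2) ^ l' := by positivity
    calc ρ * (b : ℝ) ^ 2 * ((l' : ℝ) + 2) ^ (b ^ 2) * (((b : ℝ) ^ 2) ^ l' * (1 - η) ^ l')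
        = ((b : ℝ) ^ 2) ^ l' * (ρ * (b : ℝ) ^ 2 * ((l' : ℝ) + 2) ^ (b ^ 2) * (1 - η) ^ l') := by
          ring
      _ ≤ ((b : ℝ) ^ 2) ^ l' * 1 := mul_le_mul_of_nonneg_left hkey h7
      _ = _ := mul_one _


end Pool.Agent.X312.DR
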