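import Pool.Agent.X312.DR.Core

/-!
# Stable families of subspaces in modules over correspondences: irreducible motives
-/

open CategoryTheory AlgebraicGeometry

universe u v w

namespace Pool.Agent.X312.DR

open Module Polynomial
open Pool.Agent.H914 Pool.Agent.H914.VarClass Pool.Agent.H914.VarClass.Obj
  Pool.Agent.H914.WeilCohomology Pool.Agent.Y133.Half Pool.Agent.Y133.Half.Sys
  Pool.Agent.X312.RL Pool.Agent.X312.RL.IsMdl Pool.Agent.X312.DL

variable {k : Type u} [Field k] {𝒱 : VarClass k} {ops : CycleOps 𝒱}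
  {W : WeilCohomology.{u, v} ops} {F : Type w} [Field F] {V : 𝒱.Obj → Type w}
  [∀ X, AddCommGroup (V X)] [∀ X, Module F (V X)] {X : 𝒱.Obj}

/-- The idempotent `γ` is primitive. -/
def PrimOp (S : Sys W) {P : 𝒱.Obj} (γ : Module.End W.K (W.H P)) : Prop :=
  ∀ α ∈ S.Op P P, α ∘ₗ α = α → γ ∘ₗ α = α → α ∘ₗ γ = α → α = 0 ∨ α = γ

variable {S : Sys W} {σ : F →+* W.K} {R : Ops W F V} (h : IsMdl S σ R)
include h

/-- **The step** for a primitive idempotent. -/
theorem step_prim {P : 𝒱.Obj} (hf : Fine σ R P) {N' N : ∀ X, Submodule F (V X)}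
    (hN' : Stable R N') (hN : Stable R N) {g : Module.End F (V P)}
    {γ : Module.End W.K (W.H P)} (hg : (g, γ) ∈ R P P) (hgg : g ∘ₗ g = g) (hγγ : γ ∘ₗ γ = γ)
    (hprim : PrimOp S γ) {z : V P} (hzN : z ∈ N P) (hgz : g z = z) (hgm : z ∉ N' P)
    (hle : ∀ X, N' X ≤ N X) (Z : 𝒱.Obj) (hZ : FiniteDimensional F (N Z)) :
    finrank F (N' Z) + S.r P γ Z ≤ finrank F (N Z) := by
  have hγS : γ ∈ S.Op P P := h.op hg
  -- the key property
  have key : ∀ x ∈ R P P, x.1 z ∈ N' P →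
      LinearMap.trace W.K (W.H P) (par (W.isInternal P) ∘ₗ γ ∘ₗ x.2) = 0 := by
    rintro ⟨x, ξ⟩ hx hxz
    change x z ∈ N' P at hxz
    change LinearMap.trace W.K (W.H P) (par (W.isInternal P) ∘ₗ γ ∘ₗ ξ) = 0
    have hyR : (g ∘ₗ x ∘ₗ g, γ ∘ₗ ξ ∘ₗ γ) ∈ R P P := h.comp hg (h.comp hx hg)
    obtain ⟨π, u, ϖ, υ, huR, hπR, e1, e2, e3, e4, hππ, hϖϖ, hnil⟩ := h.fit_pair hf hyR
    obtain ⟨hgπ, hπg, h1⟩ := idem_sub (A := Module.End F (V P)) (g := g) hgg
      (by change g ∘ₗ (g ∘ₗ x ∘ₗ g) = _; rw [← LinearMap.comp_assoc, hgg])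
      (by
        change (g ∘ₗ x ∘ₗ g) ∘ₗ g = _
        rw [LinearMap.comp_assoc, LinearMap.comp_assoc, hgg]) e1 e2 hππ
    obtain ⟨hγϖ, hϖγ, h1'⟩ := idem_sub (A := Module.End W.K (W.H P)) (g := γ) hγγ
      (by change γ ∘ₗ (γ ∘ₗ ξ ∘ₗ γ) = _; rw [← LinearMap.comp_assoc, hγγ])
      (by
        change (γ ∘ₗ ξ ∘ₗ γ) ∘ₗ γ = _
        rw [LinearMap.comp_assoc, LinearMap.comp_assoc, hγγ]) e3 e4 hϖϖ
    have hyz : (g ∘ₗ x ∘ₗ g) z ∈ N' P := by
      rw [LinearMap.comp_apply, LinearMap.comp_apply, hgz]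
      exact hN' P P _ hg _ hxz
    have hϖ0 : ϖ = 0 := by
      rcases hprim ϖ (h.op hπR) hϖϖ hγϖ hϖγ with h0 | h0
      · exact h0
      exfalso
      have h3 : (g - π, γ - ϖ) ∈ R P P := h.sub hg hπR
      have h4 : g - π = 0 := hf.phantom _ h3 h1 (by
        change γ - ϖ = 0
        rw [h0, sub_self])
      apply hgm
      have h5 : π z ∈ N' P := by
        rw [e1, Module.End.mul_apply]
        exact hN' P P _ huR _ hyz
      rw [sub_eq_zero] at h4
      rw [← h4, hgz] at h5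
      exact h5
    rw [trace_compress (p := par (W.isInternal P)) (γ := γ) hγγ (Op.ev hγS).par_comm]
    exact h.tr_nil (h.op hyR) (hnil hϖ0)
  have hmain := h.r_le_of_key (Op.ev hγS) z hN' hN hzN hZ key
  have hr7 : finrank F ((N Z).map (N' Z).mkQ) + finrank F (N' Z) = finrank F (N Z) := by
    have h1 := LinearMap.finrank_range_add_finrank_ker ((N' Z).mkQ.domRestrict (N Z))
    rw [LinearMap.range_domRestrict] at h1
    rw [← h1]
    congr 1
    have h2 : LinearMap.ker ((N' Z).mkQ.domRestrict (N Z)) = (N' Z).submoduleOf (N Z) := by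
      ext x
      simp [Submodule.submoduleOf]
    rw [h2]
    exact (Submodule.submoduleOfEquivOfLe (hle Z)).finrank_eq.symm
  omega

omit h in
lemma idem_one_sub {A : Type*} [Ring A] {p : A} (hp : p * p = p) : (1 - p) * (1 - p) = 1 - p := by
  rw [mul_sub, sub_mul, sub_mul, hp]
  simp

/-- An element over the unit has an inverse. -/
lemma fit_unit {P : 𝒱.Obj} (hf : Fine σ R P) {y : Module.End F (V P)}
    (hy : (y, (1 : Module.End W.K (W.H P))) ∈ R P P) :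
    ∃ u : Module.End F (V P), (u, (1 : Module.End W.K (W.H P))) ∈ R P P ∧ u * y = 1 := by
  obtain ⟨μ, hμ0, hμ1, hμ2⟩ := hf.alg _ hy
  change aeval y μ = 0 at hμ1
  change aeval (1 : Module.End W.K (W.H P)) (μ.map σ) = 0 at hμ2
  obtain ⟨q, c, d, e, hq1, hq2⟩ := exists_fit_poly hμ0
  have huR := h.aeval_mem hy q
  have h1 : aeval (1 : Module.End W.K (W.H P)) (q.map σ) = 1 := by
    have h2 := congrArg (fun p : F[X] => aeval (1 : Module.End W.K (W.H P)) (p.map σ)) hq2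
    simp only [Polynomial.map_mul, Polynomial.map_add, Polynomial.map_X, Polynomial.map_pow,
      map_mul, map_add, map_pow, aeval_X, one_pow, one_mul, mul_one, hμ2, mul_zero, add_zero] at h2
    exact h2.symm
  change (aeval y q, aeval (1 : Module.End W.K (W.H P)) (q.map σ)) ∈ R P P at huR
  rw [h1] at huR
  have hπR := h.comp huR hy
  change (aeval y q * y, (1 : Module.End W.K (W.H P)) * 1) ∈ R P P at hπR
  have hπ : (aeval y q * y) * (aeval y q * y) = aeval y q * y := fit_idem hq1 hμ1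
  have h3 := h.sub (h.one P) hπR
  have h4 := hf.phantom _ h3 (idem_one_sub (A := Module.End F (V P)) hπ) (by
    change (1 : Module.End W.K (W.H P)) - 1 * 1 = 0
    rw [mul_one, sub_self])
  refine ⟨_, huR, ?_⟩
  have h5 : (1 : Module.End F (V P)) - aeval y q * y = 0 := h4
  exact (sub_eq_zero.1 h5).symm

/-- Transport of a primitive idempotent along a factorization of the identity. -/
theorem transport {P Q : 𝒱.Obj} (hf : Fine σ R P)
    (hsurj : ∀ (X Y : 𝒱.Obj) (b : W.H X →ₗ[W.K] W.H Y), b ∈ S.Op X Y → ∃ a, (a, b) ∈ R X Y)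
    {N' N : ∀ X, Submodule F (V X)} (hN' : Stable R N') (hN : Stable R N)
    {w : W.H P →ₗ[W.K] W.H Q} (hw : w ∈ S.Op P Q) {v : W.H Q →ₗ[W.K] W.H P}
    (hv : v ∈ S.Op Q P) (hvw : v ∘ₗ w = LinearMap.id)
    {g : Module.End F (V P)}
    {γ : Module.End W.K (W.H P)} (hg : (g, γ) ∈ R P P) (hgg : g ∘ₗ g = g) (hγγ : γ ∘ₗ γ = γ)
    (hprim : PrimOp S γ) {z : V P} (hzN : z ∈ N P) (hgz : g z = z) (hgm : z ∉ N' P) :
    ∃ (g₁ : Module.End F (V Q)) (γ₁ : Module.End W.K (W.H Q)) (z₁ : V Q), (g₁, γ₁) ∈ R Q Q ∧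
      g₁ ∘ₗ g₁ = g₁ ∧ γ₁ ∘ₗ γ₁ = γ₁ ∧ PrimOp S γ₁ ∧ z₁ ∈ N Q ∧ g₁ z₁ = z₁ ∧ z₁ ∉ N' Q ∧
      finrank W.K (LinearMap.range γ) ≤ finrank W.K (LinearMap.range γ₁) := by
  obtain ⟨w', hwR⟩ := hsurj _ _ w hw
  obtain ⟨v', hvR⟩ := hsurj _ _ v hv
  have hyR : (v' ∘ₗ w', v ∘ₗ w) ∈ R P P := h.comp hvR hwR
  rw [hvw] at hyR
  obtain ⟨u, huR, hu⟩ := fit_unit h hf hyR
  have hv2R : (u ∘ₗ v', v) ∈ R Q P := h.comp huR hvR
  set v2 := u ∘ₗ v' with hv2
  have h21 : ∀ x, v2 (w' x) = x := fun x => congrArg (fun f : V P →ₗ[F] V P => f x) hu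
  have e21 : ∀ x, v (w x) = x := fun x => congrArg (fun f : Module.End W.K (W.H P) => f x) hvw
  have hgg' : ∀ x, g (g x) = g x := fun x => congrArg (fun f : V P →ₗ[F] V P => f x) hgg
  have eγγ' : ∀ x, γ (γ x) = γ x := fun x => congrArg (fun f : Module.End W.K (W.H P) => f x) hγγ
  refine ⟨w' ∘ₗ g ∘ₗ v2, w ∘ₗ γ ∘ₗ v, w' z, h.comp hwR (h.comp hg hv2R), ?_, ?_, ?_,
    hN _ _ _ hwR _ hzN, ?_, ?_, ?_⟩
  · apply LinearMap.ext
    intro x
    simp only [LinearMap.comp_apply, h21, hgg']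
  · apply LinearMap.ext
    intro x
    simp only [LinearMap.comp_apply, e21, eγγ']
  · intro α hα hαα h1 h2
    have a1 : ∀ x, α (α x) = α x := fun x => congrArg (fun f : Module.End W.K (W.H Q) => f x) hαα
    have a2 : ∀ x, w (γ (v (α x))) = α x :=
      fun x => congrArg (fun f : Module.End W.K (W.H Q) => f x) h1
    have a3 : ∀ x, α (w (γ (v x))) = α x :=
      fun x => congrArg (fun f : Module.End W.K (W.H Q) => f x) h2
    have a4 : ∀ x, γ (v (α x)) = v (α x) := by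
      intro x
      rw [← a2 x, e21, eγγ']
    have a5 : ∀ x, α (w (v x)) = α x := by
      intro x
      rw [← a3 (w (v x)), e21, a3]
    have c1 : (v ∘ₗ α ∘ₗ w) ∘ₗ (v ∘ₗ α ∘ₗ w) = v ∘ₗ α ∘ₗ w := by
      apply LinearMap.ext
      intro x
      simp only [LinearMap.comp_apply]
      rw [a5, a1]
    have c2 : γ ∘ₗ (v ∘ₗ α ∘ₗ w) = v ∘ₗ α ∘ₗ w := by
      apply LinearMap.ext
      intro x
      simp only [LinearMap.comp_apply]
      rw [a4]
    have c3 : (v ∘ₗ α ∘ₗ w) ∘ₗ γ = v ∘ₗ α ∘ₗ w := by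
      apply LinearMap.ext
      intro x
      simp only [LinearMap.comp_apply]
      have b1 := a3 (w x)
      rw [e21] at b1
      rw [b1]
    rcases hprim (v ∘ₗ α ∘ₗ w) (Op.comp hv (Op.comp hα hw)) c1 c2 c3 with h0 | h0
    · left
      apply LinearMap.ext
      intro x
      have b1 : v (α (w (v x))) = 0 := congrArg (fun f : Module.End W.K (W.H P) => f (v x)) h0
      rw [← a2 x, ← a5 x, b1, map_zero, map_zero]
      rfl
    · right
      apply LinearMap.ext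
      intro x
      have b1 : v (α (w (v x))) = γ (v x) :=
        congrArg (fun f : Module.End W.K (W.H P) => f (v x)) h0
      rw [a5] at b1
      change α x = w (γ (v x))
      rw [← b1, ← a4 x, a2]
  · simp only [LinearMap.comp_apply, h21, hgz]
  · intro hmem
    apply hgm
    have := hN' _ _ _ hv2R _ hmem
    change v2 (w' z) ∈ N' P at this
    rwa [h21] at this
  · have h1 : LinearMap.range γ ≤ (LinearMap.range (w ∘ₗ γ ∘ₗ v)).map v := by
      rintro _ ⟨x, rfl⟩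
      refine ⟨w (γ (v (w x))), ⟨w x, rfl⟩, ?_⟩
      rw [e21, e21]
    exact (Submodule.finrank_mono h1).trans (Submodule.finrank_map_le _ _)

/-- **The bound for a primitive idempotent.** -/
theorem bound_prim {l : W.H X} (hl : l ∈ S.C X) (hl1 : W.tr X l = 1)
    (hf : ∀ m, Fine σ R (pw X m))
    (hsurj : ∀ (X Y : 𝒱.Obj) (b : W.H X →ₗ[W.K] W.H Y), b ∈ S.Op X Y → ∃ a, (a, b) ∈ R X Y)
    {N' N : ∀ X, Submodule F (V X)} (hN' : Stable R N') (hN : Stable R N)
    (hle : ∀ X, N' X ≤ N X) {m : ℕ} {g : Module.End F (V (pw X m))}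
    {γ : Module.End W.K (W.H (pw X m))} (hg : (g, γ) ∈ R (pw X m) (pw X m)) (hgg : g ∘ₗ g = g)
    (hγγ : γ ∘ₗ γ = γ) (hprim : PrimOp S γ) {z : V (pw X m)} (hzN : z ∈ N (pw X m))
    (hgz : g z = z) (hgm : z ∉ N' (pw X m)) {ρ : ℝ} (hρ : 2 ≤ ρ) (n : ℕ)
    (hfd : FiniteDimensional F (N (pw X n))) :
    (finrank F (N' (pw X n)) + (finrank W.K (LinearMap.range γ) -
        cst (finrank W.K (W.H X)) (m + 1) ρ n) * S.a (pw X n) ≤ finrank F (N (pw X n))) ∨
      ∀ T : Sys W, ρ * S.a (pw X n) ≤ finrank W.K (T.C (pw X n)) := by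
  have h1 : (1 : W.H X) ≠ 0 := one_ne_zero_of (ne_zero_of_tr hl1)
  have hX : 0 < finrank W.K (W.H X) := by
    have : Nontrivial (W.H X) := ⟨⟨1, 0, h1⟩⟩
    exact Module.finrank_pos
  have hpos : ∀ n, 0 < S.al X n := by
    intro n
    obtain ⟨m, hm, hm1⟩ := S.exists_lam hl hl1 n
    refine S.a_pos (xp_mem_C S hm hm) ?_
    rw [tr_xp, hm1, mul_one]
  have ha0 : (0 : ℝ) ≤ S.a (pw X n) := Nat.cast_nonneg _
  by_cases hpar : n % 2 = m % 2
  · rcases lower_core hpos hX (h.op hg) hγγ le_rfl hρ hpar with h2 | h2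
    · left
      have h3 := cst_mono (ρ := ρ) (n := n) (b := finrank W.K (W.H X)) (by linarith) hX
        (Nat.le_succ m)
      have h5 := step_prim h (hf m) hN' hN hg hgg hγγ hprim hzN hgz hgm hle (pw X n) hfd
      have h6 : (finrank F (N' (pw X n)) : ℝ) + S.r (pw X m) γ (pw X n) ≤
          finrank F (N (pw X n)) := by exact_mod_cast h5
      nlinarith
    · exact Or.inr h2
  · obtain ⟨w, hw, v, hv, hwv⟩ := Sp.exists_split (S := S) (P := pw X m) hl hl1
    obtain ⟨g₁, γ₁, z₁, b1, b2, b3, b4, b5, b6, b7, b8⟩ := transport h (Q := pw X (m + 1)) (hf m)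
      hsurj hN' hN hv hw hwv hg hgg hγγ hprim hzN hgz hgm
    rcases lower_core (m := m + 1) hpos hX (h.op b1) b3 b8 hρ (n := n) (by omega) with h2 | h2
    · left
      have h5 := step_prim h (hf (m + 1)) hN' hN b1 b2 b3 b4 b5 b6 b7 hle (pw X n) hfd
      have h6 : (finrank F (N' (pw X n)) : ℝ) + S.r (pw X (m + 1)) γ₁ (pw X n) ≤
          finrank F (N (pw X n)) := by exact_mod_cast h5
      linarith
    · exact Or.inr h2

end Pool.Agent.X312.DR
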