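import Pool.Agent.X312.DR.Split
import Pool.Agent.Y133.Half.PairPow
import Pool.Agent.X312.RL.Rel

/-!
# Two systems: the ratio law
-/

open CategoryTheory AlgebraicGeometry

universe u v w

namespace Pool.Agent.X312.DR

open Module Polynomial
open Pool.Agent.H914 Pool.Agent.H914.VarClass Pool.Agent.H914.VarClass.Obj
  Pool.Agent.H914.WeilCohomology Pool.Agent.Y133.Half Pool.Agent.Y133.Half.Sys
  Pool.Agent.X312.RL Pool.Agent.X312.RL.IsMdl Pool.Agent.X312.DL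
  Pool.Agent.H281R3.HT Pool.Agent.W536.RR

variable {k : Type u} [Field k] {𝒱 : VarClass k} {ops : CycleOps 𝒱}
  {W : WeilCohomology.{u, v} ops} {X P Q Z : 𝒱.Obj} {S T : Sys W}

lemma eq_zero_of_str (hS : Nondeg S (P.prod Q)) {u : W.H P →ₗ[W.K] W.H Q} (hu : u ∈ S.Op P Q)
    (h : ∀ g ∈ S.Op Q P, LinearMap.trace W.K (W.H P)
      (par (W.isInternal P) ∘ₗ g ∘ₗ u) = 0) : u = 0 := by
  obtain ⟨c, hc, rfl⟩ := mem_Op.1 hu
  have h0 : c = 0 := by
    refine hS c hc fun d hd => ?_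
    have h3 := h (W.corr (W.map (swap Q P) d)) (Op.corr (S.map _ hd))
    rw [trace_corr_corr, ← map_mul, tr_swap] at h3
    rw [PH.even_comm (S.even hc)]
    exact h3
  rw [h0, corr_zero]

lemma aeval_op {w : Module.End W.K (W.H P)} (hw : w ∈ S.Op P P) (q : W.K[X]) :
    aeval w q ∈ S.Op P P := by
  rw [aeval_eq_sum_range]
  exact Submodule.sum_mem _ fun i _ => Submodule.smul_mem _ _ (Op.pow hw i)

/-- A non-nilpotent element under a primitive idempotent is a unit there. -/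
lemma exists_inv {γ : Module.End W.K (W.H P)} (hγγ : γ ∘ₗ γ = γ) (hprim : PrimOp S γ)
    {w : Module.End W.K (W.H P)} (hw : w ∈ S.Op P P) (h1 : γ * w = w) (h2 : w * γ = w)
    (hn : ¬ IsNilpotent w) : ∃ υ ∈ S.Op P P, γ = w ∘ₗ υ := by
  have hμ0 : w.charpoly ≠ 0 := w.charpoly_monic.ne_zero
  have hμ1 : aeval w w.charpoly = 0 := LinearMap.aeval_self_charpoly w
  obtain ⟨q, c, d, e, hq1, hq2⟩ := exists_fit_poly hμ0
  have hυ := aeval_op hw q
  have hcomm : aeval w q * w = w * aeval w q := by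
    have : Commute (aeval w q) (aeval w (X : W.K[X])) := by
      rw [Commute, SemiconjBy, ← map_mul, ← map_mul, mul_comm]
    rw [aeval_X] at this
    exact this
  have hππ : (aeval w q * w) * (aeval w q * w) = aeval w q * w := fit_idem hq1 hμ1
  obtain ⟨b1, b2, _⟩ := idem_sub (A := Module.End W.K (W.H P)) (g := γ) hγγ h1 h2 rfl hcomm hππ
  rcases hprim (aeval w q * w) (Op.comp hυ hw) hππ b1 b2 with h | h
  · exact absurd ⟨e + 1, fit_nil hq2 hμ1 h⟩ hn
  · exact ⟨aeval w q, hυ, by rw [← h, hcomm]; rfl⟩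

/-- **Comparison of the ranks.** -/
theorem r_compare (hST : ∀ Z, S.C Z ≤ T.C Z) (hP : Nondeg T (P.prod P))
    {γ : Module.End W.K (W.H P)} (hγ : γ ∈ S.Op P P) (hγγ : γ ∘ₗ γ = γ) (hprim : PrimOp S γ)
    {γ' : Module.End W.K (W.H P)} (hγ' : γ' ∈ T.Op P P) (h2 : γ' ∘ₗ γ = γ') (h0 : γ' ≠ 0)
    (Z : 𝒱.Obj) : S.r P γ Z ≤ T.r P γ' Z := by
  have hOp : ∀ A B : 𝒱.Obj, S.Op A B ≤ T.Op A B := by
    intro A B u hu
    obtain ⟨c, hc, rfl⟩ := mem_Op.1 hu
    exact Op.corr (hST _ hc)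
  rw [← S.rk_BO_r (Op.ev hγ), ← T.rk_BO_r (Op.ev hγ')]
  set β := S.BO P Z γ LinearMap.id with hβ
  set β' := T.BO P Z γ' LinearMap.id with hβ'
  set δ := β' ∘ₗ Submodule.inclusion (hOp Z P) with hδ
  have hker : LinearMap.ker δ ≤ LinearMap.ker β := by
    intro u hu
    rw [LinearMap.mem_ker] at hu ⊢
    apply LinearMap.ext
    intro v
    change β u v = 0
    rw [hβ, BO_apply, LinearMap.id_comp]
    by_contra hne
    set ξ : Module.End W.K (W.H P) := (u : W.H Z →ₗ[W.K] W.H P) ∘ₗ (v : W.H P →ₗ[W.K] W.H Z)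
      with hξ
    have hξS : ξ ∈ S.Op P P := Op.comp u.2 v.2
    have hne' : LinearMap.trace W.K (W.H P) (par (W.isInternal P) ∘ₗ γ ∘ₗ ξ) ≠ 0 := hne
    rw [trace_compress (p := par (W.isInternal P)) (γ := γ) hγγ (Op.ev hγ).par_comm] at hne'
    set w : Module.End W.K (W.H P) := γ ∘ₗ ξ ∘ₗ γ with hw
    have hwS : w ∈ S.Op P P := Op.comp hγ (Op.comp hξS hγ)
    have hwn : ¬ IsNilpotent w := by
      intro hn
      apply hne'
      have hc : Commute (par (W.isInternal P)) w := (Op.ev hwS).par_comm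
      exact Pool.Agent.Y129.trace_nil (hc.isNilpotent_mul_left hn)
    have hγg : ∀ x, γ (γ x) = γ x := fun x => congrArg (fun f : Module.End W.K (W.H P) => f x) hγγ
    obtain ⟨υ, hυ, hγw⟩ := exists_inv hγγ hprim hwS
      (by
        apply LinearMap.ext; intro x
        change γ (γ (ξ (γ x))) = γ (ξ (γ x))
        rw [hγg])
      (by
        apply LinearMap.ext; intro x
        change γ (ξ (γ (γ x))) = γ (ξ (γ x))
        rw [hγg]) hwn
    -- a correspondence which detects `γ'`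
    obtain ⟨g, hg, hgt⟩ : ∃ g ∈ T.Op P P, LinearMap.trace W.K (W.H P)
        (par (W.isInternal P) ∘ₗ g ∘ₗ γ') ≠ 0 := by
      by_contra hcon
      push Not at hcon
      exact h0 (eq_zero_of_str hP hγ' hcon)
    apply hgt
    have e1 : ∀ x, γ' (γ x) = γ' x := fun x => congrArg (fun f : Module.End W.K (W.H P) => f x) h2
    have e2 : γ' = (γ' ∘ₗ (u : W.H Z →ₗ[W.K] W.H P)) ∘ₗ
        ((v : W.H P →ₗ[W.K] W.H Z) ∘ₗ γ ∘ₗ υ) := by
      apply LinearMap.ext
      intro x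
      have e3 : γ x = γ (ξ (γ (υ x))) := congrArg (fun f : Module.End W.K (W.H P) => f x) hγw
      change γ' x = γ' (ξ (γ (υ x)))
      rw [← e1 x, e3, e1]
    set v' : W.H P →ₗ[W.K] W.H Z := ((v : W.H P →ₗ[W.K] W.H Z) ∘ₗ γ ∘ₗ υ) ∘ₗ g with hv'
    have hv'T : v' ∈ T.Op P Z :=
      Op.comp (hOp _ _ (Op.comp v.2 (Op.comp hγ hυ))) hg
    have e4 : (β' (Submodule.inclusion (hOp Z P) u)) ⟨v', hv'T⟩ = 0 :=
      congrArg (fun f : T.Op P Z →ₗ[W.K] W.K => f ⟨v', hv'T⟩) hu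
    rw [hβ', BO_apply, LinearMap.id_comp] at e4
    have e5 : LinearMap.trace W.K (W.H P) (par (W.isInternal P) ∘ₗ g ∘ₗ γ') =
        LinearMap.trace W.K (W.H P) (par (W.isInternal P) ∘ₗ γ' ∘ₗ g) := by
      have hc : Commute (par (W.isInternal P)) γ' := (Op.ev hγ').par_comm
      have h5 := LinearMap.trace_mul_comm W.K (par (W.isInternal P) * g) γ'
      have h6 : γ' * (par (W.isInternal P) * g) = par (W.isInternal P) * (γ' * g) := by
        rw [← mul_assoc, ← hc.eq, mul_assoc]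
      rw [h6] at h5
      exact h5
    rw [e5]
    have e6 : γ' ∘ₗ g = γ' ∘ₗ (u : W.H Z →ₗ[W.K] W.H P) ∘ₗ v' := by
      apply LinearMap.ext
      intro x
      exact congrArg (fun f : Module.End W.K (W.H P) => f (g x)) e2
    rw [e6]
    exact e4
  have h3 := LinearMap.finrank_range_add_finrank_ker (K := W.K) (V := S.Op Z P) β
  have h4 := LinearMap.finrank_range_add_finrank_ker (K := W.K) (V := S.Op Z P) δ
  have h5 := Submodule.finrank_mono hker
  have h6 : LinearMap.range δ ≤ LinearMap.range β' := LinearMap.range_comp_le_range _ _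
  have h7 := Submodule.finrank_mono h6
  rw [rk, rk]
  omega

/-- Transport of primitive idempotents. -/
lemma prim_transport {w : W.H P →ₗ[W.K] W.H Q} (hw : w ∈ S.Op P Q) {v : W.H Q →ₗ[W.K] W.H P}
    (hv : v ∈ S.Op Q P) (hvw : v ∘ₗ w = LinearMap.id) {γ : Module.End W.K (W.H P)}
    (hγγ : γ ∘ₗ γ = γ) (hprim : PrimOp S γ) : PrimOp S (w ∘ₗ γ ∘ₗ v) := by
  have e21 : ∀ x, v (w x) = x := fun x => congrArg (fun f : Module.End W.K (W.H P) => f x) hvw
  have eγγ' : ∀ x, γ (γ x) = γ x := fun x => congrArg (fun f : Module.End W.K (W.H P) => f x) hγγ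
  intro α hα hαα h1 h2
  have a1 : ∀ x, α (α x) = α x := fun x => congrArg (fun f : Module.End W.K (W.H Q) => f x) hαα
  have a2 : ∀ x, w (γ (v (α x))) = α x :=
    fun x => congrArg (fun f : Module.End W.K (W.H Q) => f x) h1
  have a3 : ∀ x, α (w (γ (v x))) = α x :=
    fun x => congrArg (fun f : Module.End W.K (W.H Q) => f x) h2
  have a4 : ∀ x, γ (v (α x)) = v (α x) := by
    intro x
    rw [← a2 x, e21, eγγ']
  have a5 : ∀ x, α (w (v x)) = α x := by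
    intro x
    rw [← a3 (w (v x)), e21, a3]
  have c1 : (v ∘ₗ α ∘ₗ w) ∘ₗ (v ∘ₗ α ∘ₗ w) = v ∘ₗ α ∘ₗ w := by
    apply LinearMap.ext
    intro x
    simp only [LinearMap.comp_apply]
    rw [a5, a1]
  have c2 : γ ∘ₗ (v ∘ₗ α ∘ₗ w) = v ∘ₗ α ∘ₗ w := by
    apply LinearMap.ext
    intro x
    simp only [LinearMap.comp_apply]
    rw [a4]
  have c3 : (v ∘ₗ α ∘ₗ w) ∘ₗ γ = v ∘ₗ α ∘ₗ w := by
    apply LinearMap.ext
    intro x
    simp only [LinearMap.comp_apply]
    have b1 := a3 (w x)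
    rw [e21] at b1
    rw [b1]
  rcases hprim (v ∘ₗ α ∘ₗ w) (Op.comp hv (Op.comp hα hw)) c1 c2 c3 with h0 | h0
  · left
    apply LinearMap.ext
    intro x
    have b1 : v (α (w (v x))) = 0 := congrArg (fun f : Module.End W.K (W.H P) => f (v x)) h0
    rw [← a2 x, ← a5 x, b1, map_zero, map_zero]
    rfl
  · right
    apply LinearMap.ext
    intro x
    have b1 : v (α (w (v x))) = γ (v x) :=
      congrArg (fun f : Module.End W.K (W.H P) => f (v x)) h0
    rw [a5] at b1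
    change α x = w (γ (v x))
    rw [← b1, ← a4 x, a2]

lemma comb {R r r' a d c₁ c κ : ℝ} (hlow : (R - c₁) * a ≤ r) (hrr : r ≤ r')
    (hup : (1 - κ) * r' ≤ d) (h1 : c₁ ≤ c) (h2 : κ * R ≤ c) (hc₁ : 0 ≤ c₁) (ha : 0 ≤ a)
    (hd : 0 ≤ d) (hκ : 0 ≤ κ) (hR : 0 ≤ R) : (R - 2 * c) * a ≤ d := by
  rcases le_or_gt κ 1 with hk | hk
  · have h3 : (1 - κ) * ((R - c₁) * a) ≤ (1 - κ) * r' :=
      mul_le_mul_of_nonneg_left (hlow.trans hrr) (by linarith)
    have h4 : (R - 2 * c) ≤ (1 - κ) * (R - c₁) := by nlinarith [mul_nonneg hκ hc₁]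
    have h5 : (R - 2 * c) * a ≤ (1 - κ) * (R - c₁) * a := mul_le_mul_of_nonneg_right h4 ha
    linarith
  · have h3 : R ≤ κ * R := by nlinarith
    have h4 : R - 2 * c ≤ 0 := by nlinarith
    exact (mul_nonpos_of_nonpos_of_nonneg h4 ha).trans hd

lemma cst_mul (b m n : ℕ) {R : ℝ} (hb : 1 ≤ b) (hR : R ≤ (b : ℝ) ^ (m + 1)) :
    cst b 0 2 n * R ≤ cst b (m + 1) 2 n := by
  have hb' : (1 : ℝ) ≤ b := by exact_mod_cast hb
  have hn0 : (0 : ℝ) < (n : ℝ) + 1 := by positivity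
  have hL : 0 ≤ Real.log ((n : ℝ) + 2) := Real.log_nonneg (by
    have : (0 : ℝ) ≤ n := Nat.cast_nonneg n
    linarith)
  have hm : (0 : ℝ) ≤ m := Nat.cast_nonneg m
  have h1 : 0 ≤ cst b 0 2 n := by
    unfold cst
    positivity
  refine (mul_le_mul_of_nonneg_left hR h1).trans ?_
  unfold cst
  rw [div_mul_eq_mul_div]
  apply div_le_div_of_nonneg_right _ hn0.le
  have h3 : (b : ℝ) ^ (m + 1 + 5) = (b : ℝ) ^ (0 + 5) * (b : ℝ) ^ (m + 1) := by
    rw [← pow_add]; congr 1; omega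
  push_cast
  rw [h3]
  have h4 : 0 ≤ (b : ℝ) ^ 5 * (b : ℝ) ^ (m + 1) * Real.log ((n : ℝ) + 2) := by positivity
  have h5 : 2 * ((m : ℝ) + 1 + 3) * ((b : ℝ) ^ (0 + 5) * (b : ℝ) ^ (m + 1)) * 2 *
      Real.log ((n : ℝ) + 2) - 2 * (0 + 3) * (b : ℝ) ^ 5 * 2 * Real.log ((n : ℝ) + 2) *
        (b : ℝ) ^ (m + 1) = (4 * m + 4) * ((b : ℝ) ^ 5 * (b : ℝ) ^ (m + 1) *
          Real.log ((n : ℝ) + 2)) := by ring
  have h6 : 0 ≤ (4 * (m : ℝ) + 4) * ((b : ℝ) ^ 5 * (b : ℝ) ^ (m + 1) *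
      Real.log ((n : ℝ) + 2)) := mul_nonneg (by positivity) h4
  linarith

/-- The case of equal parities. -/
theorem ratio_core (hST : ∀ Z, S.C Z ≤ T.C Z) (hS : ∀ n, Nondeg S (pw X n))
    (hT : ∀ n, Nondeg T (pw X n)) {l : W.H X} (hl : l ∈ S.C X) (hl1 : W.tr X l = 1) {m : ℕ}
    {γ γ' : Module.End W.K (W.H (pw X m))} (hγ : γ ∈ S.Op (pw X m) (pw X m))
    (hγγ : γ ∘ₗ γ = γ) (hprim : PrimOp S γ) (hγ' : γ' ∈ T.Op (pw X m) (pw X m))
    (hγγ' : γ' ∘ₗ γ' = γ') (h2 : γ' ∘ₗ γ = γ') (h0 : γ' ≠ 0) {n : ℕ} (hpar : n % 2 = m % 2)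
    {D d : ℕ} (hD : D ≤ finrank W.K (LinearMap.range γ))
    (hd : finrank W.K (LinearMap.range γ') ≤ d) {c : ℝ}
    (hc1 : cst (finrank W.K (W.H X)) m 2 n ≤ c)
    (hc2 : cst (finrank W.K (W.H X)) 0 2 n * D ≤ c) :
    (D - 2 * c) * S.a (pw X n) ≤ d * T.a (pw X n) := by
  have h1 : (1 : W.H X) ≠ 0 := one_ne_zero_of (ne_zero_of_tr hl1)
  have hX : 0 < finrank W.K (W.H X) := by
    have : Nontrivial (W.H X) := ⟨⟨1, 0, h1⟩⟩
    exact Module.finrank_pos
  have hposS : ∀ n, 0 < S.al X n := by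
    intro n
    obtain ⟨m, hm, hm1⟩ := S.exists_lam hl hl1 n
    refine S.a_pos (xp_mem_C S hm hm) ?_
    rw [tr_xp, hm1, mul_one]
  have hlT : l ∈ T.C X := hST X hl
  have hposT : ∀ n, 0 < T.al X n := by
    intro n
    obtain ⟨m, hm, hm1⟩ := T.exists_lam hlT hl1 n
    refine T.a_pos (xp_mem_C T hm hm) ?_
    rw [tr_xp, hm1, mul_one]
  have ha0 : (0 : ℝ) ≤ S.a (pw X n) := Nat.cast_nonneg _
  have haT0 : (0 : ℝ) ≤ T.a (pw X n) := Nat.cast_nonneg _
  have hda : (0 : ℝ) ≤ d * T.a (pw X n) := mul_nonneg (Nat.cast_nonneg _) haT0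
  have hle : (S.a (pw X n) : ℝ) ≤ T.a (pw X n) := by
    have e1 := nondeg_iff.1 (hS n)
    have e2 := nondeg_iff.1 (hT n)
    rw [e1, e2]
    exact_mod_cast Submodule.finrank_mono (hST _)
  have hzero : ∀ U : Sys W, (∀ n, Nondeg U (pw X n)) → (∀ T' : Sys W, (2 : ℝ) * U.a (pw X n) ≤
      finrank W.K (T'.C (pw X n))) → (U.a (pw X n) : ℝ) = 0 := by
    intro U hU h
    have e1 := h U
    rw [← nondeg_iff.1 (hU n)] at e1
    have e2 : (0 : ℝ) ≤ U.a (pw X n) := Nat.cast_nonneg _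
    linarith
  have hcst : 0 ≤ cst (finrank W.K (W.H X)) m 2 n := by
    unfold cst
    have := log_nonneg' n
    positivity
  have hcst0 : 0 ≤ cst (finrank W.K (W.H X)) 0 2 n := by
    unfold cst
    have := log_nonneg' n
    positivity
  rcases lower_core hposS hX hγ hγγ hD (le_refl (2 : ℝ)) hpar with h3 | h3
  swap
  · rw [hzero S hS h3, mul_zero]
    exact hda
  rcases upper_core hposT hlT hl1 hX hγ' hγγ' (le_refl (2 : ℝ)) hpar with h4 | h4
  swap
  · have h5 := hzero T hT h4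
    have h6 : (S.a (pw X n) : ℝ) = 0 := by linarith
    rw [h6, mul_zero]
    exact hda
  have h5 := r_compare hST (nondeg_pw hT m m) hγ hγγ hprim hγ' h2 h0 (pw X n)
  have h5' : (S.r (pw X m) γ (pw X n) : ℝ) ≤ T.r (pw X m) γ' (pw X n) := by exact_mod_cast h5
  have h6 : (finrank W.K (LinearMap.range γ') : ℝ) * T.a (pw X n) ≤ d * T.a (pw X n) :=
    mul_le_mul_of_nonneg_right (by exact_mod_cast hd) haT0
  exact comb h3 h5' (h4.trans h6) hc1 hc2 hcst ha0 hda hcst0 (Nat.cast_nonneg _)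

/-- **The ratio law.** -/
theorem ratio_law (hST : ∀ Z, S.C Z ≤ T.C Z) (hS : ∀ n, Nondeg S (pw X n))
    (hT : ∀ n, Nondeg T (pw X n)) {m : ℕ}
    {γ γ' : Module.End W.K (W.H (pw X m))} (hγ : γ ∈ S.Op (pw X m) (pw X m))
    (hγγ : γ ∘ₗ γ = γ) (hprim : PrimOp S γ) (hγ' : γ' ∈ T.Op (pw X m) (pw X m))
    (hγγ' : γ' ∘ₗ γ' = γ') (h2 : γ' ∘ₗ γ = γ') (h0 : γ' ≠ 0) (n : ℕ) :
    (finrank W.K (LinearMap.range γ) - 2 * cst (finrank W.K (W.H X)) (m + 1) 2 n) *
      S.a (pw X n) ≤ finrank W.K (LinearMap.range γ') * T.a (pw X n) := by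
  rcases S.exists_one_or X with ⟨l, hl, hl1⟩ | h
  swap
  · rw [h, Nat.cast_zero, mul_zero]
    exact mul_nonneg (Nat.cast_nonneg _) (Nat.cast_nonneg _)
  have h1 : (1 : W.H X) ≠ 0 := one_ne_zero_of (ne_zero_of_tr hl1)
  have hX : 0 < finrank W.K (W.H X) := by
    have : Nontrivial (W.H X) := ⟨⟨1, 0, h1⟩⟩
    exact Module.finrank_pos
  have hR : (finrank W.K (LinearMap.range γ) : ℝ) ≤ (finrank W.K (W.H X) : ℝ) ^ (m + 1) := by
    have h1 : finrank W.K (LinearMap.range γ) ≤ finrank W.K (W.H (pw X m)) :=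
      Submodule.finrank_le _
    rw [finrank_pw] at h1
    exact_mod_cast h1
  have hc2 := cst_mul (finrank W.K (W.H X)) m n hX hR
  have hc1 : cst (finrank W.K (W.H X)) m 2 n ≤ cst (finrank W.K (W.H X)) (m + 1) 2 n :=
    cst_mono (ρ := 2) (n := n) (b := finrank W.K (W.H X)) (by norm_num) hX (Nat.le_succ m)
  by_cases hpar : n % 2 = m % 2
  · exact ratio_core hST hS hT hl hl1 hγ hγγ hprim hγ' hγγ' h2 h0 hpar le_rfl le_rfl hc1 hc2
  · obtain ⟨w, hw, v, hv, hwv⟩ := Sp.exists_split (S := S) (P := pw X m) hl hl1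
    have hOp : ∀ A B : 𝒱.Obj, S.Op A B ≤ T.Op A B := by
      intro A B u hu
      obtain ⟨c, hc, rfl⟩ := mem_Op.1 hu
      exact Op.corr (hST _ hc)
    have e21 : ∀ x, w (v x) = x :=
      fun x => congrArg (fun f : Module.End W.K (W.H (pw X m)) => f x) hwv
    have eγ : ∀ x, γ (γ x) = γ x :=
      fun x => congrArg (fun f : Module.End W.K (W.H (pw X m)) => f x) hγγ
    have eγ' : ∀ x, γ' (γ' x) = γ' x :=
      fun x => congrArg (fun f : Module.End W.K (W.H (pw X m)) => f x) hγγ'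
    have e2 : ∀ x, γ' (γ x) = γ' x :=
      fun x => congrArg (fun f : Module.End W.K (W.H (pw X m)) => f x) h2
    have hr1 : finrank W.K (LinearMap.range γ) ≤
        finrank W.K (LinearMap.range (v ∘ₗ γ ∘ₗ w)) := by
      have h1 : LinearMap.range γ ≤ (LinearMap.range (v ∘ₗ γ ∘ₗ w)).map w := by
        rintro _ ⟨x, rfl⟩
        refine ⟨v (γ (w (v x))), ⟨v x, rfl⟩, ?_⟩
        rw [e21, e21]
      exact (Submodule.finrank_mono h1).trans (Submodule.finrank_map_le _ _)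
    have hr2 : finrank W.K (LinearMap.range (v ∘ₗ γ' ∘ₗ w)) ≤
        finrank W.K (LinearMap.range γ') := by
      have h1 : LinearMap.range (v ∘ₗ γ' ∘ₗ w) ≤ (LinearMap.range γ').map v := by
        rintro _ ⟨x, rfl⟩
        exact ⟨γ' (w x), ⟨w x, rfl⟩, rfl⟩
      exact (Submodule.finrank_mono h1).trans (Submodule.finrank_map_le _ _)
    refine ratio_core (m := m + 1) (γ := v ∘ₗ γ ∘ₗ w) (γ' := v ∘ₗ γ' ∘ₗ w) hST hS hT hl hl1
      (Op.comp hv (Op.comp hγ hw)) ?_ (prim_transport hv hw hwv hγγ hprim)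
      (Op.comp (hOp _ _ hv) (Op.comp hγ' (hOp _ _ hw))) ?_ ?_ ?_ (by omega) hr1 hr2 le_rfl hc2
    · apply LinearMap.ext
      intro x
      change v (γ (w (v (γ (w x))))) = v (γ (w x))
      rw [e21, eγ]
    · apply LinearMap.ext
      intro x
      change v (γ' (w (v (γ' (w x))))) = v (γ' (w x))
      rw [e21, eγ']
    · apply LinearMap.ext
      intro x
      change v (γ' (w (v (γ (w x))))) = v (γ' (w x))
      rw [e21, e2]
    · intro h
      apply h0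
      apply LinearMap.ext
      intro x
      have h1 := congrArg (fun f : Module.End W.K (W.H (pw X (m + 1))) => w (f (v x))) h
      change w (v (γ' (w (v x)))) = w 0 at h1
      rw [e21, e21, map_zero] at h1
      exact h1

end Pool.Agent.X312.DR
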