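import Pool.Agent.X312.DR.Prim

/-!
# Two systems: splitting of irreducible motives
-/

open CategoryTheory AlgebraicGeometry

universe u v w

namespace Pool.Agent.X312.DR

open Module Polynomial
open Pool.Agent.H914 Pool.Agent.H914.VarClass Pool.Agent.H914.VarClass.Obj
  Pool.Agent.H914.WeilCohomology Pool.Agent.Y133.Half Pool.Agent.Y133.Half.Sys
  Pool.Agent.X312.RL Pool.Agent.X312.RL.IsMdl Pool.Agent.X312.DL

variable {k : Type u} [Field k] {𝒱 : VarClass k} {ops : CycleOps 𝒱}
  {W : WeilCohomology.{u, v} ops} {X P Z : 𝒱.Obj} {S T : Sys W}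

/-- The projection to the unit object. -/
noncomputable def unitOp (W : WeilCohomology.{u, v} ops) {X : 𝒱.Obj} (l : W.H X) :
    Module.End W.K (W.H X) := W.corr (W.map (fst X X) l)

lemma unitOp_apply (l x : W.H X) : unitOp W l x = W.tr X (l * x) • (1 : W.H X) := by
  rw [unitOp, corr_apply, ← map_mul, push_snd']

lemma unitOp_mem {l : W.H X} (hl : l ∈ S.C X) : unitOp W l ∈ S.Op X X := Op.corr (S.map _ hl)

lemma unitOp_idem {l : W.H X} (hl1 : W.tr X l = 1) : unitOp W l ∘ₗ unitOp W l = unitOp W l := by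
  apply LinearMap.ext
  intro x
  rw [LinearMap.comp_apply, unitOp_apply, unitOp_apply, mul_smul_comm, mul_one, map_smul, hl1,
    smul_eq_mul, mul_one]

lemma r_unit_le {l : W.H X} (hl : l ∈ S.C X) (Z : 𝒱.Obj) : S.r X (unitOp W l) Z ≤ S.a Z := by
  have hm : W.map (fst X Z) l ∈ S.C (X.prod Z) := S.map _ hl
  let f : S.C (X.prod Z) →ₗ[W.K] S.C Z :=
    { toFun := fun c => ⟨W.push (snd X Z) (W.map (fst X Z) l * c), S.push _ (S.mul hm c.2)⟩
      map_add' := fun a b => by
        apply Subtype.ext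
        simp only [Submodule.coe_add, mul_add, map_add]
      map_smul' := fun t a => by
        apply Subtype.ext
        simp only [Submodule.coe_smul, mul_smul_comm, map_smul, RingHom.id_apply] }
  let s : S.C (X.prod Z) →ₗ[W.K] S.C Z :=
    { toFun := fun c => ⟨W.push (snd X Z) c, S.push _ c.2⟩
      map_add' := fun a b => by
        apply Subtype.ext
        simp only [Submodule.coe_add, map_add]
      map_smul' := fun t a => by
        apply Subtype.ext
        simp only [Submodule.coe_smul, map_smul, RingHom.id_apply] }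
  have hop : (extOp W (unitOp W l) (1 : Module.End W.K (W.H Z)) : W.H (X.prod Z) →ₗ[W.K] _) =
      (W.map (snd X Z)).toLinearMap ∘ₗ W.push (snd X Z) ∘ₗ
        LinearMap.mulLeft W.K (W.map (fst X Z) l) := by
    apply xp_ext
    intro i j a _ b _
    change extOp W (unitOp W l) 1 (xp W a b) =
      W.map (snd X Z) (W.push (snd X Z) (W.map (fst X Z) l * xp W a b))
    rw [extOp_xp, unitOp_apply, Module.End.one_apply, xp_def, xp_def, ← mul_assoc, ← map_mul,
      push_snd, map_smul, map_smul, map_one, smul_mul_assoc, one_mul]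
  have hF : S.F (X.prod Z) (extOp W (unitOp W l) 1) = (S.F Z 1).compl₁₂ f s := by
    apply LinearMap.ext
    intro c
    apply LinearMap.ext
    intro d
    rw [LinearMap.compl₁₂_apply, F_apply, F_apply]
    have e1 : extOp W (unitOp W l) 1 (c : W.H (X.prod Z)) =
        W.map (snd X Z) (f c : W.H Z) := congrArg (fun g => g (c : W.H (X.prod Z))) hop
    rw [e1]
    change _ = W.tr Z ((f c : W.H Z) * W.push (snd X Z) d)
    have e2 : (f c : W.H Z) * W.push (snd X Z) (d : W.H (X.prod Z)) =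
        W.push (snd X Z) d * (f c : W.H Z) := PH.even_comm (S.even (f c).2) _
    rw [e2, W.tr_push, PH.even_comm (S.even d.2)]
  rw [Sys.r, hF, Sys.a]
  exact rk_comp_le _ _ _

/-- The upper bound for the part cut out by an idempotent. -/
theorem upper_core (hpos : ∀ l, 0 < S.al X l) {l : W.H X} (hl : l ∈ S.C X)
    (hl1 : W.tr X l = 1) (hX : 0 < finrank W.K (W.H X)) {m : ℕ}
    {g : Module.End W.K (W.H (pw X m))} (hg : g ∈ S.Op (pw X m) (pw X m)) (hgg : g ∘ₗ g = g)
    {ρ : ℝ} (hρ : 2 ≤ ρ) {n : ℕ} (hpar : n % 2 = m % 2) :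
    ((1 - cst (finrank W.K (W.H X)) 0 ρ n) * S.r (pw X m) g (pw X n) ≤
      finrank W.K (LinearMap.range g) * S.a (pw X n)) ∨
      ∀ T : Sys W, ρ * S.a (pw X n) ≤ finrank W.K (T.C (pw X n)) := by
  set b := finrank W.K (W.H X) with hb
  have hb1 : (1 : ℝ) ≤ b := by exact_mod_cast hX
  have hr0 : (0 : ℝ) ≤ S.r (pw X m) g (pw X n) := Nat.cast_nonneg _
  have ha0 : (0 : ℝ) ≤ S.a (pw X n) := Nat.cast_nonneg _
  have hg0 : (0 : ℝ) ≤ finrank W.K (LinearMap.range g) := Nat.cast_nonneg _
  have hRHS : (0 : ℝ) ≤ finrank W.K (LinearMap.range g) * S.a (pw X n) := mul_nonneg hg0 ha0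
  rcases le_or_gt 1 (cst b 0 ρ n) with hk | hk
  · left
    exact (mul_nonpos_of_nonpos_of_nonneg (by linarith) hr0).trans hRHS
  have hn6 : 6 ≤ n := by
    by_contra hcon
    have h1 := pow_le_cst (b := b) (m := 0) hρ hX (n := n) (by omega)
    have h2 : (1 : ℝ) ≤ (b : ℝ) ^ (0 + 5) := one_le_pow₀ hb1
    linarith
  set m₀ := m % 2 with hm₀
  obtain ⟨l', hl'⟩ : ∃ l', n = m₀ + (l' + l' + 1) + 1 := ⟨(n - m₀ - 2) / 2, by omega⟩
  have hl1' : 1 ≤ l' := by omega
  have hln : (n : ℝ) + 1 ≤ 4 * l' := by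
    have : n + 1 ≤ 4 * l' := by omega
    exact_mod_cast this
  have hl0 : (1 : ℝ) ≤ l' := by exact_mod_cast hl1'
  have hlog1 := one_le_log hl1'
  have hlogn : Real.log ((l' : ℝ) + 2) ≤ Real.log ((n : ℝ) + 2) := by
    apply Real.log_le_log (by linarith)
    have : l' + 2 ≤ n + 2 := by omega
    exact_mod_cast this
  have hn0 : (0 : ℝ) < (n : ℝ) + 1 := by positivity
  set η : ℝ := ρ * (b : ℝ) ^ 2 * Real.log ((l' : ℝ) + 2) / l' with hη
  have hη0 : 0 ≤ η := by positivity
  have hκ : b * η ≤ cst b 0 ρ n := by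
    have h2 : Real.log ((l' : ℝ) + 2) / l' ≤ 4 * Real.log ((n : ℝ) + 2) / (n + 1) := by
      rw [div_le_div_iff₀ (by linarith) hn0]
      nlinarith
    have h3 : 0 ≤ Real.log ((l' : ℝ) + 2) / l' := by positivity
    have hρ0 : 0 ≤ ρ := by linarith
    have h5 : (b : ℝ) ^ 3 ≤ (b : ℝ) ^ (0 + 5) := pow_le_pow_right₀ hb1 (by norm_num)
    have h6 : b * η = (b : ℝ) ^ 3 * (ρ * (Real.log ((l' : ℝ) + 2) / l')) := by
      rw [hη]; ring
    have hL : 0 ≤ Real.log ((n : ℝ) + 2) := by linarith
    have h8 : (b : ℝ) ^ (0 + 5) * (ρ * (4 * Real.log ((n : ℝ) + 2) / (n + 1))) ≤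
        cst b 0 ρ n := by
      unfold cst
      have h9 : (b : ℝ) ^ (0 + 5) * (ρ * (4 * Real.log ((n : ℝ) + 2) / (n + 1))) =
          (b : ℝ) ^ (0 + 5) * (4 * ρ * Real.log ((n : ℝ) + 2)) / (n + 1) := by ring
      rw [h9]
      apply div_le_div_of_nonneg_right _ hn0.le
      have h10 : (4 * ρ * Real.log ((n : ℝ) + 2)) ≤
          2 * ((0 : ℕ) + 3) * ρ * Real.log ((n : ℝ) + 2) := by
        push_cast
        nlinarith [mul_nonneg hρ0 hL]
      have h11 := mul_le_mul_of_nonneg_left h10 (by positivity : (0 : ℝ) ≤ (b : ℝ) ^ (0 + 5))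
      refine h11.trans (le_of_eq ?_)
      ring
    rw [h6]
    refine le_trans ?_ h8
    apply mul_le_mul h5 _ (by positivity) (by positivity)
    exact mul_le_mul_of_nonneg_left h2 hρ0
  have hη1 : η ≤ 1 := by nlinarith
  set c : ℝ := (b : ℝ) ^ 2 * (1 - η) with hc
  have hc0 : 0 ≤ c := mul_nonneg (by positivity) (by linarith)
  rcases le_or_gt (c * S.al X l') (S.al X (l' + 1)) with hcase | hcase
  · left
    set Y := pw X l' with hY
    set P₀ := pw X m₀ with hP₀
    let φ : P₀.prod (Y.prod Y) ≅ pw X n :=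
      prodCongr (Iso.refl _) (pwAdd X l' l') ≪≫ pwAdd X m₀ (l' + l' + 1) ≪≫
        eqToIso (congrArg (pw X) hl'.symm)
    have hr := S.r_iso (P := pw X m) g φ
    have hassoc := S.r_assoc (Q := P₀) (Z := Y.prod Y) g
    have hal : S.a (Y.prod Y) = S.al X l' := rfl
    have h7 : (0 : ℝ) ≤ S.al X l' := Nat.cast_nonneg _
    -- the upper bound for the rank
    have hG : extOp W g (1 : Module.End W.K (W.H P₀)) ∈ S.Op _ _ := Op.ext hg Op.id
    have hGG : extOp W g (1 : Module.End W.K (W.H P₀)) ∘ₗ extOp W g 1 = extOp W g 1 := by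
      have := extOp_mul (W := W) g g (1 : Module.End W.K (W.H P₀)) 1
      change extOp W g 1 * extOp W g 1 = _
      rw [this, mul_one]
      change extOp W (g ∘ₗ g) 1 = _
      rw [hgg]
    have h1 := S.r_le_rank hG hGG Y
    have h11 : (1 : Module.End W.K (W.H P₀)) ∘ₗ 1 = 1 := rfl
    rw [finrank_extOp hgg h11, rank_one, hassoc, hr, hal] at h1
    have hdP₀ : finrank W.K (W.H P₀) = b ^ (m₀ + 1) := finrank_pw _ _
    rw [hdP₀] at h1
    have h1' : (S.r (pw X m) g (pw X n) : ℝ) ≤
        finrank W.K (LinearMap.range g) * (b : ℝ) ^ (m₀ + 1) * S.al X l' := by exact_mod_cast h1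
    -- the lower bound for `a`
    have h2 : (b : ℝ) ^ (m₀ + 1) * (1 - b * η) * S.al X l' ≤ S.a (pw X n) := by
      have haφ : S.a (pw X n) = S.a (P₀.prod (Y.prod Y)) := (S.a_iso φ).symm
      rcases Nat.mod_two_eq_zero_or_one m with h0 | h0
      · have hm0 : m₀ = 0 := h0
        have e1 := r_lower_rank (P := X) (P₀ := X) (unitOp_mem (S := S) hl)
          (unitOp_idem hl1) Y
        have e2 := r_unit_le hl (X.prod (Y.prod Y))
        have e3 : S.a ((X.prod X).prod (Y.prod Y)) = S.al X (l' + 1) :=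
          S.a_pw X (m := 1) (l := l') (n := l' + 1) (by ring)
        have e4 : 1 ≤ finrank W.K (LinearMap.range (unitOp W l)) := by
          have : Nontrivial (LinearMap.range (unitOp W l)) := by
            refine ⟨⟨⟨unitOp W l 1, 1, rfl⟩, 0, fun h => ?_⟩⟩
            have h1 : unitOp W l 1 = 0 := congrArg Subtype.val h
            rw [unitOp_apply, mul_one, hl1, one_smul] at h1
            exact one_ne_zero_of (ne_zero_of_tr hl1) h1
          exact finrank_pos
        have e5 : S.a (pw X n) = S.a (X.prod (Y.prod Y)) := by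
          rw [haφ]
          have : P₀ = X := by rw [hP₀, hm0]; rfl
          rw [this]
        rw [e3, hal] at e1
        have e6 : (S.al X (l' + 1) : ℝ) + 1 * b * S.al X l' ≤
            S.a (pw X n) + b * b * S.al X l' := by
          have h8 : S.al X (l' + 1) + 1 * b * S.al X l' ≤ S.a (pw X n) + b * b * S.al X l' := by
            have h9 : 1 * b * S.al X l' ≤
                finrank W.K (LinearMap.range (unitOp W l)) * finrank W.K (W.H X) * S.al X l' :=
              Nat.mul_le_mul_right _ (Nat.mul_le_mul_right _ e4)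
            rw [← hb] at e1 h9
            rw [e5]
            omega
          exact_mod_cast h8
        rw [hm0, zero_add, pow_one]
        have e7 : (b : ℝ) * (1 - b * η) * S.al X l' =
            c * S.al X l' + 1 * b * S.al X l' - b * b * S.al X l' := by
          rw [hc]; ring
        rw [e7]
        linarith
      · have hm1 : m₀ = 1 := h0
        have e3 : S.a (P₀.prod (Y.prod Y)) = S.al X (l' + 1) := by
          rw [hP₀, hm1]
          exact S.a_pw X (by ring)
        rw [haφ, e3, hm1]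
        refine le_trans ?_ hcase
        refine mul_le_mul_of_nonneg_right ?_ h7
        rw [hc]
        have : η ≤ b * η := by nlinarith
        exact mul_le_mul_of_nonneg_left (by linarith) (by positivity)
    have h3 : (1 - cst b 0 ρ n) ≤ 1 - b * η := by linarith
    have h4 : 0 ≤ 1 - cst b 0 ρ n := by linarith
    calc (1 - cst b 0 ρ n) * (S.r (pw X m) g (pw X n) : ℝ)
        ≤ (1 - cst b 0 ρ n) *
          (finrank W.K (LinearMap.range g) * (b : ℝ) ^ (m₀ + 1) * S.al X l') :=
          mul_le_mul_of_nonneg_left h1' h4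
      _ ≤ (1 - b * η) *
          (finrank W.K (LinearMap.range g) * (b : ℝ) ^ (m₀ + 1) * S.al X l') :=
          mul_le_mul_of_nonneg_right h3 (by positivity)
      _ = finrank W.K (LinearMap.range g) *
          ((b : ℝ) ^ (m₀ + 1) * (1 - b * η) * S.al X l') := by ring
      _ ≤ _ := mul_le_mul_of_nonneg_left h2 hg0
  · right
    intro T
    have hBc : ∀ i < l', (S.al X (i + 1) : ℝ) ≤ c * S.al X i := fun i hi =>
      ratio_le_of_lt hpos (S.al_convex X) hcase hi.le
    refine small_close hc0 hBc hX (m₀ := m₀) (by omega) hl' (by linarith) ?_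
    have hkey := real_ineq (b := b) (l := l') hX hl1' hρ hη1 (by
      rw [hη]
      field_simp
      exact le_rfl)
    rw [hc, mul_pow]
    have h7 : (0 : ℝ) ≤ ((b : ℝ) ^ 2) ^ l' := by positivity
    calc ρ * (b : ℝ) ^ 2 * ((l' : ℝ) + 2) ^ (b ^ 2) * (((b : ℝ) ^ 2) ^ l' * (1 - η) ^ l')
        = ((b : ℝ) ^ 2) ^ l' * (ρ * (b : ℝ) ^ 2 * ((l' : ℝ) + 2) ^ (b ^ 2) * (1 - η) ^ l') := by
          ring
      _ ≤ ((b : ℝ) ^ 2) ^ l' * 1 := mul_le_mul_of_nonneg_left hkey h7
      _ = _ := mul_one _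

end Pool.Agent.X312.DR
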